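import Mathlib

/-!
Tools on Euler's totient and the sum of divisors (helper29).
-/

namespace Pool.Agent.Helper29.PhiSig

open Nat ArithmeticFunction

/-- sum of divisors -/
abbrev sg (n : ℕ) : ℕ := ArithmeticFunction.sigma 1 n

lemma sg_eq (n : ℕ) : sg n = ∑ d ∈ n.divisors, d := sigma_one_apply n

lemma sg_mul {a b : ℕ} (h : a.Coprime b) : sg (a * b) = sg a * sg b :=
  isMultiplicative_sigma.map_mul_of_coprime h

lemma sg_prime_pow {p k : ℕ} (hp : p.Prime) : sg (p ^ k) = ∑ i ∈ Finset.range (k + 1), p ^ i :=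
  sigma_one_apply_prime_pow hp

lemma sg_prime {p : ℕ} (hp : p.Prime) : sg p = p + 1 := by
  have := sg_prime_pow (k := 1) hp
  rw [pow_one] at this
  rw [this]
  simp [Finset.sum_range_succ]
  ring

/-- the sum of `d - φ d` over the proper divisors -/
def gg (n : ℕ) : ℕ := ∑ d ∈ n.properDivisors, (d - φ d)

/-- `σ n + φ n = 2 n + gg n`. -/
lemma sg_add_phi (n : ℕ) : sg n + φ n = 2 * n + gg n := by
  rcases Nat.eq_zero_or_pos n with rfl | hn
  · simp [gg, sg]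
  have h1 : ∑ d ∈ n.divisors, d = ∑ d ∈ n.divisors, (d - φ d) + ∑ d ∈ n.divisors, φ d := by
    rw [← Finset.sum_add_distrib]
    refine Finset.sum_congr rfl (fun d _ => ?_)
    have := Nat.totient_le d
    omega
  rw [Nat.sum_totient] at h1
  have h2 : ∑ d ∈ n.divisors, (d - φ d) = gg n + (n - φ n) := by
    rw [← Nat.insert_self_properDivisors hn.ne',
      Finset.sum_insert Nat.self_notMem_properDivisors]
    unfold gg
    ring
  have := Nat.totient_le n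
  rw [sg_eq, h1, h2]
  omega

lemma two_mul_le (n : ℕ) : 2 * n ≤ sg n + φ n := by
  rw [sg_add_phi]; omega

lemma self_sub_phi_ge_two {e : ℕ} (he : 1 < e) (hne : ¬ e.Prime) : 2 ≤ e - φ e := by
  have h1 : φ e < e := Nat.totient_lt e he
  have h2 : φ e ≠ e - 1 := fun h => hne ((Nat.totient_eq_iff_prime (by omega)).1 h)
  omega

/-- T2: for a prime divisor `r` of `m`, `r * φ m ≤ (r - 1) * m`. -/
lemma mul_phi_le {r m : ℕ} (hr : r.Prime) (hrm : r ∣ m) : r * φ m ≤ (r - 1) * m := by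
  rcases Nat.eq_zero_or_pos m with rfl | hm
  · simp
  obtain ⟨a, m1, hnd, rfl⟩ := Nat.exists_eq_pow_mul_and_not_dvd hm.ne' r hr.ne_one
  have ha : 0 < a := by
    rcases Nat.eq_zero_or_pos a with rfl | h
    · simp at hrm; exact absurd hrm hnd
    · exact h
  have hc : (r ^ a).Coprime m1 := Nat.Coprime.pow_left _ ((Nat.Prime.coprime_iff_not_dvd hr).2 hnd)
  rw [Nat.totient_mul hc, Nat.totient_prime_pow hr ha]
  have h1 : r * (r ^ (a - 1) * (r - 1) * φ m1) = (r - 1) * (r ^ a * φ m1) := by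
    have : r ^ a = r * r ^ (a - 1) := by
      rw [← pow_succ']; congr 1; omega
    rw [this]; ring
  rw [h1]
  exact Nat.mul_le_mul_left _ (Nat.mul_le_mul_left _ (Nat.totient_le m1))

lemma sg_geom {p k : ℕ} (hp : p.Prime) : sg (p ^ k) * (p - 1) + 1 = p ^ (k + 1) := by
  rw [sg_prime_pow hp]
  have := Nat.geomSum_eq hp.two_le (k + 1)
  have h2 : (p - 1) ∣ p ^ (k + 1) - 1 := by
    simpa using Nat.sub_dvd_pow_sub_pow p 1 (k + 1)
  rw [this, Nat.div_mul_cancel h2]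
  have : 0 < p ^ (k + 1) := pow_pos hp.pos _
  omega

/-- `σ(r^a) φ(r^a) r^{a+1} = r^{2a} (r^{a+1} - 1)`, in the form without subtraction. -/
lemma sg_phi_prime_pow {r a : ℕ} (hr : r.Prime) (ha : 0 < a) :
    sg (r ^ a) * φ (r ^ a) + r ^ (a - 1) = r ^ (2 * a) := by
  rw [Nat.totient_prime_pow hr ha]
  have h := sg_geom (k := a) hr
  have e1 : r ^ (2 * a) = r ^ (a - 1) * r ^ (a + 1) := by
    rw [← pow_add]; congr 1; omega
  rw [e1, ← h]
  ring

lemma sg_phi_le (n : ℕ) : sg n * φ n ≤ n ^ 2 := by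
  induction n using Nat.recOnPosPrimePosCoprime with
  | prime_pow p n hp hn =>
      have := sg_phi_prime_pow (a := n) hp hn
      have e : (p ^ n) ^ 2 = p ^ (2 * n) := by rw [← pow_mul]; congr 1; ring
      rw [e]; omega
  | zero => simp
  | one => simp [sg]
  | coprime a b ha hb hab h1 h2 =>
      rw [sg_mul hab, Nat.totient_mul hab]
      calc sg a * sg b * (φ a * φ b) = (sg a * φ a) * (sg b * φ b) := by ring
        _ ≤ a ^ 2 * b ^ 2 := Nat.mul_le_mul h1 h2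
        _ = (a * b) ^ 2 := by ring

/-- The deficiency bound: if `m = r^a * m1` with `r ∤ m1`, `a ≥ 1`, then
`m^2 ≤ r^{a+1} (m^2 - σ(m) φ(m))`. -/
lemma sq_le_pow_mul {r a m1 : ℕ} (hr : r.Prime) (ha : 0 < a) (hnd : ¬ r ∣ m1) :
    (r ^ a * m1) ^ 2 + r ^ (a + 1) * (sg (r ^ a * m1) * φ (r ^ a * m1)) ≤
      r ^ (a + 1) * (r ^ a * m1) ^ 2 := by
  have hc : (r ^ a).Coprime m1 := Nat.Coprime.pow_left _ ((Nat.Prime.coprime_iff_not_dvd hr).2 hnd)
  rw [sg_mul hc, Nat.totient_mul hc]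
  have h1 := sg_phi_prime_pow hr ha
  have h2 := sg_phi_le m1
  have e2 : r ^ (a + 1) * r ^ (a - 1) = r ^ (2 * a) := by
    rw [← pow_add]; congr 1; omega
  calc (r ^ a * m1) ^ 2 + r ^ (a + 1) * (sg (r ^ a) * sg m1 * (φ (r ^ a) * φ m1))
      = r ^ (2 * a) * m1 ^ 2 + r ^ (a + 1) * (sg (r ^ a) * φ (r ^ a)) * (sg m1 * φ m1) := by ring
    _ ≤ r ^ (2 * a) * m1 ^ 2 + r ^ (a + 1) * (sg (r ^ a) * φ (r ^ a)) * m1 ^ 2 := by
        gcongr
    _ = (r ^ (a + 1) * r ^ (a - 1) + r ^ (a + 1) * (sg (r ^ a) * φ (r ^ a))) * m1 ^ 2 := by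
        rw [e2]; ring
    _ = r ^ (a + 1) * (sg (r ^ a) * φ (r ^ a) + r ^ (a - 1)) * m1 ^ 2 := by ring
    _ = r ^ (a + 1) * (r ^ a * m1) ^ 2 := by rw [h1]; ring

lemma sg_two_mul {m : ℕ} (hm : m % 2 = 1) : sg (2 * m) = 3 * sg m := by
  have hc : Nat.Coprime 2 m := (Nat.Prime.coprime_iff_not_dvd Nat.prime_two).2 (by omega)
  rw [sg_mul hc, sg_prime Nat.prime_two]

lemma phi_two_mul {m : ℕ} (hm : m % 2 = 1) : φ (2 * m) = φ m :=
  Nat.totient_two_mul_of_odd (Nat.odd_iff.2 hm)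

lemma sg_three_mul {m : ℕ} (hm : m % 3 ≠ 0) : sg (3 * m) = 4 * sg m := by
  have hc : Nat.Coprime 3 m := (Nat.Prime.coprime_iff_not_dvd Nat.prime_three).2 (by omega)
  rw [sg_mul hc, sg_prime Nat.prime_three]

lemma phi_three_mul {m : ℕ} (hm : m % 3 ≠ 0) : φ (3 * m) = 2 * φ m := by
  have hc : Nat.Coprime 3 m := (Nat.Prime.coprime_iff_not_dvd Nat.prime_three).2 (by omega)
  rw [Nat.totient_mul hc, Nat.totient_prime Nat.prime_three]

/-- pairing divisors: if `m` is not a square and `t ∣ d + m / d` for all divisors, then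
`t ∣ σ(m)`. -/
lemma dvd_sg {m t : ℕ} (hm : 0 < m) (hsq : ¬ IsSquare m) (h : ∀ d ∈ m.divisors, t ∣ d + m / d) :
    t ∣ sg m := by
  classical
  rw [sg_eq]
  have h1 : ∑ d ∈ m.divisors, d = ∑ d ∈ m.divisors with d * d < m, d +
      ∑ d ∈ m.divisors with ¬ d * d < m, d := (Finset.sum_filter_add_sum_filter_not _ _ _).symm
  have h2 : ∑ d ∈ m.divisors with ¬ d * d < m, d = ∑ d ∈ m.divisors with d * d < m, m / d := by
    refine Finset.sum_bij' (fun d _ => m / d) (fun d _ => m / d) ?_ ?_ ?_ ?_ ?_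
    · intro d hd
      rw [Finset.mem_filter] at hd ⊢
      obtain ⟨hd, hlt⟩ := hd
      obtain ⟨e, rfl⟩ := Nat.dvd_of_mem_divisors hd
      have hd0 : 0 < d := Nat.pos_of_mem_divisors hd
      rw [Nat.mul_div_cancel_left _ hd0]
      refine ⟨Nat.mem_divisors.2 ⟨Dvd.intro_left d rfl, hm.ne'⟩, ?_⟩
      have hne : d ≠ e := fun h' => hsq ⟨d, by rw [← h']⟩
      have hle : e ≤ d := by
        rw [not_lt] at hlt
        exact Nat.le_of_mul_le_mul_left hlt hd0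
      nlinarith [lt_of_le_of_ne hle hne.symm]
    · intro d hd
      rw [Finset.mem_filter] at hd ⊢
      obtain ⟨hd, hlt⟩ := hd
      obtain ⟨e, rfl⟩ := Nat.dvd_of_mem_divisors hd
      have hd0 : 0 < d := Nat.pos_of_mem_divisors hd
      rw [Nat.mul_div_cancel_left _ hd0]
      refine ⟨Nat.mem_divisors.2 ⟨Dvd.intro_left d rfl, hm.ne'⟩, ?_⟩
      have hle : d < e := Nat.lt_of_mul_lt_mul_left hlt
      nlinarith
    · intro d hd
      rw [Finset.mem_filter] at hd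
      exact Nat.div_div_self (Nat.dvd_of_mem_divisors hd.1) hm.ne'
    · intro d hd
      rw [Finset.mem_filter] at hd
      exact Nat.div_div_self (Nat.dvd_of_mem_divisors hd.1) hm.ne'
    · intro d hd
      rw [Finset.mem_filter] at hd
      exact (Nat.div_div_self (Nat.dvd_of_mem_divisors hd.1) hm.ne').symm
  rw [h1, h2, ← Finset.sum_add_distrib]
  exact Finset.dvd_sum (fun d hd => h d (Finset.mem_filter.1 hd).1)

lemma not_isSquare_of_mod_four {m : ℕ} (h : m % 4 = 3) : ¬ IsSquare m := by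
  rintro ⟨w, rfl⟩
  have : w % 4 = 0 ∨ w % 4 = 1 ∨ w % 4 = 2 ∨ w % 4 = 3 := by omega
  rcases this with h' | h' | h' | h' <;> simp [Nat.mul_mod, h'] at h

lemma four_dvd_sg {m : ℕ} (h : m % 4 = 3) : 4 ∣ sg m := by
  refine dvd_sg (by omega) (not_isSquare_of_mod_four h) (fun d hd => ?_)
  obtain ⟨e, rfl⟩ := Nat.dvd_of_mem_divisors hd
  have hd0 : 0 < d := Nat.pos_of_mem_divisors hd
  rw [Nat.mul_div_cancel_left _ hd0]
  have h1 : d % 4 = 0 ∨ d % 4 = 1 ∨ d % 4 = 2 ∨ d % 4 = 3 := by omega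
  have h2 : e % 4 = 0 ∨ e % 4 = 1 ∨ e % 4 = 2 ∨ e % 4 = 3 := by omega
  rcases h1 with h1 | h1 | h1 | h1 <;> rcases h2 with h2 | h2 | h2 | h2 <;>
    simp [Nat.mul_mod, h1, h2] at h <;> omega

lemma eight_dvd_sg {m : ℕ} (h : m % 8 = 7) : 8 ∣ sg m := by
  refine dvd_sg (by omega) (not_isSquare_of_mod_four (by omega)) (fun d hd => ?_)
  obtain ⟨e, rfl⟩ := Nat.dvd_of_mem_divisors hd
  have hd0 : 0 < d := Nat.pos_of_mem_divisors hd
  rw [Nat.mul_div_cancel_left _ hd0]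
  have h1 : d % 8 = 0 ∨ d % 8 = 1 ∨ d % 8 = 2 ∨ d % 8 = 3 ∨ d % 8 = 4 ∨ d % 8 = 5 ∨ d % 8 = 6 ∨
    d % 8 = 7 := by omega
  have h2 : e % 8 = 0 ∨ e % 8 = 1 ∨ e % 8 = 2 ∨ e % 8 = 3 ∨ e % 8 = 4 ∨ e % 8 = 5 ∨ e % 8 = 6 ∨
    e % 8 = 7 := by omega
  rcases h1 with h1 | h1 | h1 | h1 | h1 | h1 | h1 | h1 <;>
    rcases h2 with h2 | h2 | h2 | h2 | h2 | h2 | h2 | h2 <;>
    simp [Nat.mul_mod, h1, h2] at h <;> omega

lemma three_dvd_sg {m : ℕ} (h : m % 3 = 2) : 3 ∣ sg m := by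
  have hsq : ¬ IsSquare m := by
    rintro ⟨w, rfl⟩
    have : w % 3 = 0 ∨ w % 3 = 1 ∨ w % 3 = 2 := by omega
    rcases this with h' | h' | h' <;> simp [Nat.mul_mod, h'] at h
  refine dvd_sg (by omega) hsq (fun d hd => ?_)
  obtain ⟨e, rfl⟩ := Nat.dvd_of_mem_divisors hd
  have hd0 : 0 < d := Nat.pos_of_mem_divisors hd
  rw [Nat.mul_div_cancel_left _ hd0]
  have h1 : d % 3 = 0 ∨ d % 3 = 1 ∨ d % 3 = 2 := by omega
  have h2 : e % 3 = 0 ∨ e % 3 = 1 ∨ e % 3 = 2 := by omega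
  rcases h1 with h1 | h1 | h1 <;> rcases h2 with h2 | h2 | h2 <;>
    simp [Nat.mul_mod, h1, h2] at h <;> omega

/-- an odd number which is not a square has even divisor sum -/
lemma two_dvd_sg {m : ℕ} (h : m % 2 = 1) (hsq : ¬ IsSquare m) : 2 ∣ sg m := by
  refine dvd_sg (by omega) hsq (fun d hd => ?_)
  obtain ⟨e, rfl⟩ := Nat.dvd_of_mem_divisors hd
  have hd0 : 0 < d := Nat.pos_of_mem_divisors hd
  rw [Nat.mul_div_cancel_left _ hd0]
  have h1 : d % 2 = 0 ∨ d % 2 = 1 := by omega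
  have h2 : e % 2 = 0 ∨ e % 2 = 1 := by omega
  rcases h1 with h1 | h1 <;> rcases h2 with h2 | h2 <;>
    simp [Nat.mul_mod, h1, h2] at h <;> omega

/-- parity of the divisor sum of an odd prime power -/
lemma sg_pow_mod_two {p k : ℕ} (hp : p.Prime) (h2 : p % 2 = 1) : sg (p ^ k) % 2 = (k + 1) % 2 := by
  rw [sg_prime_pow hp, Finset.sum_nat_mod]
  have : ∀ i ∈ Finset.range (k + 1), p ^ i % 2 = 1 := by
    intro i _
    rw [Nat.pow_mod, h2, one_pow, Nat.one_mod]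
  rw [Finset.sum_congr rfl this]
  simp

end Pool.Agent.Helper29.PhiSig
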