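import Pool.Agent.Helper29.PhiSig.Basic

/-!
Factorisation lemmas (helper29).
-/

namespace Pool.Agent.Helper29.PhiSig

open Nat ArithmeticFunction

lemma exists_split {m : ℕ} (hm : 1 < m) :
    ∃ r a m1, r.Prime ∧ 0 < a ∧ ¬ r ∣ m1 ∧ m = r ^ a * m1 ∧ 0 < m1 := by
  have hr : (Nat.minFac m).Prime := Nat.minFac_prime (by omega)
  obtain ⟨a, m1, hnd, h⟩ := Nat.exists_eq_pow_mul_and_not_dvd (n := m) (by omega) _ hr.ne_one
  refine ⟨_, a, m1, hr, ?_, hnd, h, ?_⟩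
  · rcases Nat.eq_zero_or_pos a with h0 | h0
    · exfalso
      rw [h0, pow_zero, one_mul] at h
      rw [← h] at hnd
      exact hnd (Nat.minFac_dvd m)
    · exact h0
  · rcases Nat.eq_zero_or_pos m1 with h0 | h0
    · rw [h0, mul_zero] at h; omega
    · exact h0

lemma cop {r m : ℕ} (a : ℕ) (hr : r.Prime) (h : ¬ r ∣ m) : (r ^ a).Coprime m :=
  Nat.Coprime.pow_left _ ((Nat.Prime.coprime_iff_not_dvd hr).2 h)

/-- a number `> 1` is a prime power, or a product of exactly two coprime prime powers, or has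
at least three. -/
lemma trichotomy {m : ℕ} (hm : 1 < m) :
    (∃ r a, r.Prime ∧ 0 < a ∧ m = r ^ a) ∨
    (∃ r a t b, r.Prime ∧ t.Prime ∧ r ≠ t ∧ 0 < a ∧ 0 < b ∧ m = r ^ a * t ^ b) ∨
    (∃ r a t b u c m3, r.Prime ∧ t.Prime ∧ u.Prime ∧ 0 < a ∧ 0 < b ∧ 0 < c ∧ 0 < m3 ∧
      ¬ r ∣ t ^ b * (u ^ c * m3) ∧ ¬ t ∣ r ^ a * (u ^ c * m3) ∧ ¬ u ∣ r ^ a * (t ^ b * m3) ∧
      m = r ^ a * (t ^ b * (u ^ c * m3))) := by
  obtain ⟨r, a, m1, hr, ha, hr1, h1, hm1⟩ := exists_split hm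
  rcases Nat.lt_or_ge 1 m1 with h | h
  swap
  · left
    refine ⟨r, a, hr, ha, ?_⟩
    have : m1 = 1 := by omega
    rw [h1, this, mul_one]
  right
  obtain ⟨t, b, m2, ht, hb, ht2, h2, hm2⟩ := exists_split h
  have hrt : r ≠ t := by
    rintro rfl
    exact hr1 (h2 ▸ (dvd_pow_self r hb.ne').mul_right m2)
  rcases Nat.lt_or_ge 1 m2 with h' | h'
  swap
  · left
    refine ⟨r, a, t, b, hr, ht, hrt, ha, hb, ?_⟩
    have : m2 = 1 := by omega
    rw [h1, h2, this, mul_one]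
  right
  obtain ⟨u, c, m3, hu, hc, hu3, h3, hm3⟩ := exists_split h'
  have hru : r ≠ u := by
    rintro rfl
    exact hr1 (h2 ▸ (h3 ▸ ((dvd_pow_self r hc.ne').mul_right m3).mul_left _))
  have htu : t ≠ u := by
    rintro rfl
    exact ht2 (h3 ▸ ((dvd_pow_self t hc.ne').mul_right m3))
  refine ⟨r, a, t, b, u, c, m3, hr, ht, hu, ha, hb, hc, hm3, ?_, ?_, ?_, ?_⟩
  · rw [← h3, ← h2]; exact hr1
  · intro hd
    rcases (Nat.Prime.dvd_mul ht).1 hd with hd | hd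
    · exact hrt ((Nat.prime_dvd_prime_iff_eq ht hr).1 (ht.dvd_of_dvd_pow hd)).symm
    · rw [← h3] at hd; exact ht2 hd
  · intro hd
    rcases (Nat.Prime.dvd_mul hu).1 hd with hd | hd
    · exact hru ((Nat.prime_dvd_prime_iff_eq hu hr).1 (hu.dvd_of_dvd_pow hd)).symm
    rcases (Nat.Prime.dvd_mul hu).1 hd with hd | hd
    · exact htu ((Nat.prime_dvd_prime_iff_eq hu ht).1 (hu.dvd_of_dvd_pow hd)).symm
    · exact hu3 hd
  · rw [h1, h2, h3]

lemma pow_succ_le_sq {r a : ℕ} (hr : r.Prime) (ha : 0 < a) : r ^ (a + 1) ≤ (r ^ a) ^ 2 := by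
  rw [← pow_mul]
  exact Nat.pow_le_pow_right hr.pos (by omega)

/-- If every prime power block is large and primes are at least `8`, the number has a special
shape. -/
lemma shape {m : ℕ} (hm : 125 < m) (h8 : ∀ r, r.Prime → r ∣ m → 8 ≤ r)
    (h : ∀ r a m1, r.Prime → 0 < a → ¬ r ∣ m1 → m = r ^ a * m1 → m ≤ 5 * r ^ (a + 1)) :
    (∃ r a, r.Prime ∧ 0 < a ∧ m = r ^ a) ∨
    (∃ r t, r.Prime ∧ t.Prime ∧ r ≠ t ∧ m = r * t) ∨
    (∃ r t, r.Prime ∧ t.Prime ∧ r ≤ 25 ∧ m = r ^ 2 * t ∧ t ≤ 5 * r) := by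
  rcases trichotomy (show 1 < m by omega) with h1 | h1 | h1
  · exact Or.inl h1
  · right
    obtain ⟨r, a, t, b, hr, ht, hrt, ha, hb, hmm⟩ := h1
    have hr8 : 8 ≤ r := h8 r hr (hmm ▸ (dvd_pow_self r ha.ne').mul_right _)
    have ht8 : 8 ≤ t := h8 t ht (hmm ▸ (dvd_pow_self t hb.ne').mul_left _)
    have hrnd : ¬ r ∣ t ^ b := fun hd =>
      hrt ((Nat.prime_dvd_prime_iff_eq hr ht).1 (hr.dvd_of_dvd_pow hd))
    have htnd : ¬ t ∣ r ^ a := fun hd =>
      hrt ((Nat.prime_dvd_prime_iff_eq ht hr).1 (ht.dvd_of_dvd_pow hd)).symm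
    have k1 := h r a (t ^ b) hr ha hrnd hmm
    have k2 := h t b (r ^ a) ht hb htnd (by rw [hmm, mul_comm])
    have k3 : t ^ b ≤ 5 * r := by
      have : r ^ a * t ^ b ≤ r ^ a * (5 * r) := by
        rw [← hmm]
        calc m ≤ 5 * r ^ (a + 1) := k1
          _ = r ^ a * (5 * r) := by ring
      exact Nat.le_of_mul_le_mul_left this (pow_pos hr.pos a)
    have k4 : r ^ a ≤ 5 * t := by
      have : t ^ b * r ^ a ≤ t ^ b * (5 * t) := by
        rw [mul_comm, ← hmm]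
        calc m ≤ 5 * t ^ (b + 1) := k2
          _ = t ^ b * (5 * t) := by ring
      exact Nat.le_of_mul_le_mul_left this (pow_pos ht.pos b)
    obtain ⟨a', rfl⟩ : ∃ a', a = a' + 1 := ⟨a - 1, by omega⟩
    obtain ⟨b', rfl⟩ : ∃ b', b = b' + 1 := ⟨b - 1, by omega⟩
    have k5 : r ^ a' * t ^ b' ≤ 25 := by
      have : (r ^ (a' + 1)) * t ^ (b' + 1) ≤ (5 * t) * (5 * r) := Nat.mul_le_mul k4 k3
      have h2 : (r * t) * (r ^ a' * t ^ b') ≤ (r * t) * 25 := by
        calc (r * t) * (r ^ a' * t ^ b') = (r ^ (a' + 1)) * t ^ (b' + 1) := by ring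
          _ ≤ (5 * t) * (5 * r) := this
          _ = (r * t) * 25 := by ring
      exact Nat.le_of_mul_le_mul_left h2 (Nat.mul_pos hr.pos ht.pos)
    have ra : 8 ^ a' ≤ r ^ a' := Nat.pow_le_pow_left hr8 a'
    have tb : 8 ^ b' ≤ t ^ b' := Nat.pow_le_pow_left ht8 b'
    have h64 : 8 ^ (a' + b') ≤ 25 := by
      rw [pow_add]; exact (Nat.mul_le_mul ra tb).trans k5
    have hab : a' + b' < 2 := by
      by_contra hcon
      have : 8 ^ 2 ≤ 8 ^ (a' + b') := Nat.pow_le_pow_right (by norm_num) (by omega)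
      omega
    have hcases : (a' = 0 ∧ b' = 0) ∨ (a' = 1 ∧ b' = 0) ∨ (a' = 0 ∧ b' = 1) := by omega
    rcases hcases with ⟨rfl, rfl⟩ | ⟨rfl, rfl⟩ | ⟨rfl, rfl⟩
    · left
      exact ⟨r, t, hr, ht, hrt, by rw [hmm]; ring⟩
    · right
      refine ⟨r, t, hr, ht, by simpa using k5, by rw [hmm]; ring, by simpa using k3⟩
    · right
      refine ⟨t, r, ht, hr, by simpa using k5, by rw [hmm]; ring, by simpa using k4⟩
  · exfalso
    obtain ⟨r, a, t, b, u, c, m3, hr, ht, hu, ha, hb, hc, hm3, n1, n2, n3, hmm⟩ := h1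
    have k1 := h r a _ hr ha n1 hmm
    have k2 := h t b _ ht hb n2 (by rw [hmm]; ring)
    have k3 := h u c _ hu hc n3 (by rw [hmm]; ring)
    have s1 := pow_succ_le_sq hr ha
    have s2 := pow_succ_le_sq ht hb
    have s3 := pow_succ_le_sq hu hc
    set A := r ^ a
    set B := t ^ b
    set C := u ^ c
    have k1' : m ≤ 5 * A ^ 2 := k1.trans (by omega)
    have k2' : m ≤ 5 * B ^ 2 := k2.trans (by omega)
    have k3' : m ≤ 5 * C ^ 2 := k3.trans (by omega)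
    have hprod : m ^ 3 ≤ 125 * (A * B * C) ^ 2 := by
      calc m ^ 3 = m * m * m := by ring
        _ ≤ (5 * A ^ 2) * (5 * B ^ 2) * (5 * C ^ 2) :=
            Nat.mul_le_mul (Nat.mul_le_mul k1' k2') k3'
        _ = 125 * (A * B * C) ^ 2 := by ring
    have hle : A * B * C ≤ m := by
      rw [hmm]
      calc A * B * C = A * (B * (C * 1)) := by ring
        _ ≤ A * (B * (C * m3)) := by gcongr; exact hm3
    have h2 : m ^ 3 ≤ 125 * m ^ 2 := hprod.trans (by gcongr)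
    have h3 : m * m ^ 2 ≤ 125 * m ^ 2 := by
      calc m * m ^ 2 = m ^ 3 := by ring
        _ ≤ _ := h2
    have := Nat.le_of_mul_le_mul_right h3 (by positivity)
    omega

lemma two_dvd_phi {m : ℕ} (h : 2 < m) : 2 ∣ φ m := (Nat.totient_even h).two_dvd

lemma odd_prime_of_dvd {p m : ℕ} (hm : m % 2 = 1) (hd : p ∣ m) (hp : p.Prime) : 3 ≤ p ∧ p % 2 = 1 := by
  have h2 : p ≠ 2 := by
    rintro rfl
    omega
  have := hp.eq_one_or_self_of_dvd 2
  have h3 := hp.two_le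
  refine ⟨by omega, ?_⟩
  rcases hp.eq_two_or_odd with h | h
  · exact absurd h h2
  · exact h

/-- classification of the numbers with `8 ∤ φ(N)` -/
lemma classify {N : ℕ} (hN : 0 < N) (h8 : ¬ 8 ∣ φ N) :
    N ≤ 8 ∨ (∃ p k, p.Prime ∧ p % 2 = 1 ∧ 0 < k ∧ N = p ^ k) ∨
    (∃ p k, p.Prime ∧ p % 2 = 1 ∧ p % 8 ≠ 1 ∧ 0 < k ∧ N = 2 * p ^ k) ∨
    (∃ p k, p.Prime ∧ p % 4 = 3 ∧ 0 < k ∧ N = 4 * p ^ k) ∨
    (∃ p q k l, p.Prime ∧ q.Prime ∧ p % 4 = 3 ∧ q % 4 = 3 ∧ p ≠ q ∧ 0 < k ∧ 0 < l ∧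
      (N = p ^ k * q ^ l ∨ N = 2 * (p ^ k * q ^ l))) := by
  obtain ⟨a, M, hM2, hNM⟩ := Nat.exists_eq_pow_mul_and_not_dvd (n := N) hN.ne' 2 (by norm_num)
  have hModd : M % 2 = 1 := by omega
  have hcop : (2 ^ a).Coprime M := cop a Nat.prime_two hM2
  have hphi : φ N = φ (2 ^ a) * φ M := by rw [hNM, Nat.totient_mul hcop]
  have h2a : 0 < a → φ (2 ^ a) = 2 ^ (a - 1) := by
    intro ha
    rw [Nat.totient_prime_pow Nat.prime_two ha]; norm_num
  rcases Nat.lt_or_ge 1 M with hM | hM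
  swap
  · -- `N = 2 ^ a`
    left
    have hM1 : M = 1 := by omega
    rw [hM1, mul_one] at hNM
    rw [hNM]
    have : a ≤ 3 := by
      by_contra hcon
      apply h8
      rw [hphi, h2a (by omega)]
      exact ((pow_dvd_pow 2 (show 3 ≤ a - 1 by omega))).mul_right _
    calc 2 ^ a ≤ 2 ^ 3 := Nat.pow_le_pow_right (by norm_num) this
      _ = 8 := by norm_num
  right
  have key : ∀ p k, p.Prime → 0 < k → p % 2 = 1 → 2 ∣ φ (p ^ k) := by
    intro p k hp hk hodd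
    rw [Nat.totient_prime_pow hp hk]
    exact Dvd.dvd.mul_left (by omega) _
  have key4 : ∀ p k, p.Prime → 0 < k → p % 4 = 1 → 4 ∣ φ (p ^ k) := by
    intro p k hp hk hodd
    rw [Nat.totient_prime_pow hp hk]
    exact Dvd.dvd.mul_left (by omega) _
  rcases trichotomy hM with h1 | h1 | h1
  · obtain ⟨p, k, hp, hk, rfl⟩ := h1
    have hpo := (odd_prime_of_dvd hModd (dvd_pow_self p hk.ne') hp).2
    have k2 := key p k hp hk hpo
    have ha : a ≤ 2 := by
      by_contra hcon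
      apply h8
      rw [hphi, h2a (by omega)]
      have : 2 ^ 2 ∣ 2 ^ (a - 1) := pow_dvd_pow 2 (by omega)
      exact (show 8 = 2 ^ 2 * 2 by norm_num) ▸ Nat.mul_dvd_mul this k2
    have hc : a = 0 ∨ a = 1 ∨ a = 2 := by omega
    rcases hc with rfl | rfl | rfl
    · left; exact ⟨p, k, hp, hpo, hk, by rw [hNM]; ring⟩
    · right; left
      refine ⟨p, k, hp, hpo, ?_, hk, by rw [hNM]; ring⟩
      intro h81
      apply h8
      rw [hphi, Nat.totient_prime_pow hp hk]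
      exact Dvd.dvd.mul_left (Dvd.dvd.mul_left (by omega) _) _
    · right; right; left
      refine ⟨p, k, hp, ?_, hk, by rw [hNM]; ring⟩
      by_contra h43
      apply h8
      rw [hphi, h2a (by norm_num)]
      have : 4 ∣ φ (p ^ k) := key4 p k hp hk (by omega)
      exact (show 8 = 2 * 4 by norm_num) ▸ Nat.mul_dvd_mul (by norm_num) this
  · right; right; right
    obtain ⟨p, k, q, l, hp, hq, hpq, hk, hl, rfl⟩ := h1
    have hpo := (odd_prime_of_dvd hModd ((dvd_pow_self p hk.ne').mul_right _) hp).2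
    have hqo := (odd_prime_of_dvd hModd ((dvd_pow_self q hl.ne').mul_left _) hq).2
    have hcpq : (p ^ k).Coprime (q ^ l) :=
      Nat.Coprime.pow _ _ ((Nat.coprime_primes hp hq).2 hpq)
    have kp := key p k hp hk hpo
    have kq := key q l hq hl hqo
    rw [Nat.totient_mul hcpq] at hphi
    have hp3 : p % 4 = 3 := by
      by_contra hcon
      apply h8
      rw [hphi]
      have := key4 p k hp hk (by omega)
      exact Dvd.dvd.mul_left ((show 8 = 4 * 2 by norm_num) ▸ Nat.mul_dvd_mul this kq) _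
    have hq3 : q % 4 = 3 := by
      by_contra hcon
      apply h8
      rw [hphi]
      have := key4 q l hq hl (by omega)
      exact Dvd.dvd.mul_left ((show 8 = 2 * 4 by norm_num) ▸ Nat.mul_dvd_mul kp this) _
    have ha : a ≤ 1 := by
      by_contra hcon
      apply h8
      rw [hphi, h2a (by omega)]
      have : 2 ^ 1 ∣ 2 ^ (a - 1) := pow_dvd_pow 2 (by omega)
      exact (show 8 = 2 ^ 1 * (2 * 2) by norm_num) ▸
        Nat.mul_dvd_mul this (Nat.mul_dvd_mul kp kq)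
    refine ⟨p, q, k, l, hp, hq, hp3, hq3, hpq, hk, hl, ?_⟩
    have hc : a = 0 ∨ a = 1 := by omega
    rcases hc with rfl | rfl
    · left; rw [hNM]; ring
    · right; rw [hNM]; ring
  · exfalso
    obtain ⟨r, a', t, b, u, c, m3, hr, ht, hu, ha, hb, hc, hm3, n1, n2, n3, rfl⟩ := h1
    apply h8
    have hro := (odd_prime_of_dvd hModd ((dvd_pow_self r ha.ne').mul_right _) hr).2
    have hto := (odd_prime_of_dvd hModd
      (((dvd_pow_self t hb.ne').mul_right _).mul_left _) ht).2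
    have huo := (odd_prime_of_dvd hModd
      ((((dvd_pow_self u hc.ne').mul_right _).mul_left _).mul_left _) hu).2
    have c1 : (r ^ a').Coprime (t ^ b * (u ^ c * m3)) := cop _ hr n1
    have c2 : (t ^ b).Coprime (u ^ c * m3) := cop _ ht (fun hd => n2 (hd.mul_left _))
    have c3 : (u ^ c).Coprime m3 := cop _ hu (fun hd => n3 ((hd.mul_left _).mul_left _))
    rw [hphi, Nat.totient_mul c1, Nat.totient_mul c2, Nat.totient_mul c3]
    have k1 := key r a' hr ha hro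
    have k2 := key t b ht hb hto
    have k3 := key u c hu hc huo
    have : 2 * (2 * 2) ∣ φ (r ^ a') * (φ (t ^ b) * φ (u ^ c)) :=
      Nat.mul_dvd_mul k1 (Nat.mul_dvd_mul k2 k3)
    have e : φ (2 ^ a) * (φ (r ^ a') * (φ (t ^ b) * (φ (u ^ c) * φ m3))) =
        (φ (r ^ a') * (φ (t ^ b) * φ (u ^ c))) * (φ (2 ^ a) * φ m3) := by ring
    rw [e]
    exact Dvd.dvd.mul_right this _

end Pool.Agent.Helper29.PhiSig
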