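import Pool.Agent.Helper29.PhiSig.Forms

/-!
The case that one of `n`, `n + 12` is a prime power (helper29).
-/

namespace Pool.Agent.Helper29.PhiSig

open Nat ArithmeticFunction

/-- the two equations -/
def Sol (n : ℕ) : Prop := φ (n + 12) = φ n + 12 ∧ sg (n + 12) = sg n + 12

lemma gg_eq_zero {n : ℕ} (hn : 1 < n) (h : gg n = 0) : n.Prime := by
  by_contra hnp
  obtain ⟨r, hr, hrn⟩ : ∃ r, r.Prime ∧ r ∣ n := ⟨_, Nat.minFac_prime (by omega), Nat.minFac_dvd n⟩
  have hne : r ≠ n := fun h' => hnp (h' ▸ hr)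
  have hlt : r < n := lt_of_le_of_ne (Nat.le_of_dvd (by omega) hrn) hne
  have hmem : r ∈ n.properDivisors := Nat.mem_properDivisors.2 ⟨hrn, hlt⟩
  have h1 : r - φ r ≤ gg n :=
    Finset.single_le_sum (f := fun d => d - φ d) (fun _ _ => Nat.zero_le _) hmem
  rw [Nat.totient_prime hr] at h1
  have := hr.two_le
  omega

lemma gg_prime {p : ℕ} (hp : p.Prime) : gg p = 0 := by
  have := sg_add_phi p
  rw [sg_prime hp, Nat.totient_prime hp] at this
  have := hp.two_le
  omega

lemma Sol.gg_eq {n : ℕ} (h : Sol n) : gg (n + 12) = gg n := by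
  have h1 := sg_add_phi n
  have h2 := sg_add_phi (n + 12)
  rw [h.1, h.2] at h2
  omega

/-- data of a prime power -/
lemma pp_facts {p k : ℕ} (hp : p.Prime) (hk : 0 < k) :
    ∃ T : ℕ, p ^ k = p * p ^ (k - 1) ∧ (p - 1) * T + 1 = p ^ (k - 1) ∧
      sg (p ^ k) = p ^ k + p ^ (k - 1) + T ∧ φ (p ^ k) + p ^ (k - 1) = p ^ k ∧
      (k = 1 → T = 0) ∧ (2 ≤ k → 1 ≤ T) ∧ (3 ≤ k → p + 1 ≤ T) := by
  obtain ⟨j, rfl⟩ : ∃ j, k = j + 1 := ⟨k - 1, by omega⟩
  refine ⟨∑ i ∈ Finset.range j, p ^ i, ?_, ?_, ?_, ?_, ?_, ?_, ?_⟩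
  · simp [pow_succ']
  · simp only [Nat.add_sub_cancel]
    rcases Nat.eq_zero_or_pos j with rfl | hj
    · simp
    · obtain ⟨i, rfl⟩ : ∃ i, j = i + 1 := ⟨j - 1, by omega⟩
      have := sg_geom (k := i) hp
      rw [sg_prime_pow hp] at this
      rw [mul_comm]; exact this
  · rw [sg_prime_pow hp, Finset.sum_range_succ, Finset.sum_range_succ]
    simp; ring
  · rw [Nat.totient_prime_pow_succ hp]
    simp only [Nat.add_sub_cancel]
    obtain ⟨q, rfl⟩ : ∃ q, p = q + 1 := ⟨p - 1, by have := hp.two_le; omega⟩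
    simp; ring
  · intro h
    have : j = 0 := by omega
    subst this; simp
  · intro h
    have : 0 ∈ Finset.range j := Finset.mem_range.2 (by omega)
    calc 1 = p ^ 0 := by simp
      _ ≤ _ := Finset.single_le_sum (f := fun i => p ^ i) (fun _ _ => Nat.zero_le _) this
  · intro h
    obtain ⟨i, rfl⟩ : ∃ i, j = i + 2 := ⟨j - 2, by omega⟩
    rw [Finset.sum_range_succ', Finset.sum_range_succ']
    simp

/-- the totient deficiency of a prime power equal to that of another: the same prime power -/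
lemma pp_unique {p k r a : ℕ} (hp : p.Prime) (hk : 2 ≤ k) (hr : r.Prime) (ha : 0 < a)
    (h : r ^ (a - 1) = p ^ (k - 1)) : r ^ a = p ^ k := by
  have hd : p ∣ r ^ (a - 1) := h ▸ dvd_pow_self p (by omega)
  have hpr : p = r := (Nat.prime_dvd_prime_iff_eq hp hr).1 (hp.dvd_of_dvd_pow hd)
  subst hpr
  have := Nat.pow_right_injective hp.two_le h
  congr 1; omega

/-- decompositions: a prime power, or two prime powers each satisfying a given relation, with
product at most `m`. -/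
lemma two_blocks {m : ℕ} (hm : 1 < m) {D : ℕ}
    (h : ∀ r a m1, r.Prime → 0 < a → ¬ r ∣ m1 → m = r ^ a * m1 → m ^ 2 ≤ r ^ (a + 1) * D) :
    (∃ r a, r.Prime ∧ 0 < a ∧ m = r ^ a) ∨ m ≤ D := by
  have fin : ∀ A B : ℕ, m ^ 2 ≤ A ^ 2 * D → m ^ 2 ≤ B ^ 2 * D → A * B ≤ m → m ≤ D := by
    intro A B h1 h2 h3
    have h4 : m ^ 2 * m ^ 2 ≤ (A * B) ^ 2 * D ^ 2 := by
      calc m ^ 2 * m ^ 2 ≤ (A ^ 2 * D) * (B ^ 2 * D) := Nat.mul_le_mul h1 h2
        _ = (A * B) ^ 2 * D ^ 2 := by ring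
    have h5 : (A * B) ^ 2 * D ^ 2 ≤ m ^ 2 * D ^ 2 := by gcongr
    have h6 := Nat.le_of_mul_le_mul_left (h4.trans h5) (by positivity)
    exact (Nat.pow_le_pow_iff_left (by norm_num)).1 h6
  rcases trichotomy hm with h1 | h1 | h1
  · exact Or.inl h1
  · right
    obtain ⟨r, a, t, b, hr, ht, hrt, ha, hb, hmm⟩ := h1
    have hrnd : ¬ r ∣ t ^ b := fun hd =>
      hrt ((Nat.prime_dvd_prime_iff_eq hr ht).1 (hr.dvd_of_dvd_pow hd))
    have htnd : ¬ t ∣ r ^ a := fun hd =>
      hrt ((Nat.prime_dvd_prime_iff_eq ht hr).1 (ht.dvd_of_dvd_pow hd)).symm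
    have k1 := h r a (t ^ b) hr ha hrnd hmm
    have k2 := h t b (r ^ a) ht hb htnd (by rw [hmm, mul_comm])
    have s1 := pow_succ_le_sq hr ha
    have s2 := pow_succ_le_sq ht hb
    exact fin (r ^ a) (t ^ b) (k1.trans (Nat.mul_le_mul_right _ s1))
      (k2.trans (Nat.mul_le_mul_right _ s2)) hmm.ge
  · right
    obtain ⟨r, a, t, b, u, c, m3, hr, ht, hu, ha, hb, hc, hm3, n1, n2, n3, hmm⟩ := h1
    have k1 := h r a _ hr ha n1 hmm
    have k2 := h t b _ ht hb n2 (by rw [hmm]; ring)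
    have s1 := pow_succ_le_sq hr ha
    have s2 := pow_succ_le_sq ht hb
    refine fin (r ^ a) (t ^ b) (k1.trans (Nat.mul_le_mul_right _ s1))
      (k2.trans (Nat.mul_le_mul_right _ s2)) ?_
    have : 1 ≤ u ^ c * m3 := Nat.mul_pos (pow_pos hu.pos c) hm3
    calc r ^ a * t ^ b = r ^ a * (t ^ b * 1) := by ring
      _ ≤ r ^ a * (t ^ b * (u ^ c * m3)) := by gcongr
      _ = m := hmm.symm

/-- from the block inequality to the deficiency inequality -/
lemma block_le {m D r a m1 : ℕ} (hr : r.Prime) (ha : 0 < a) (hnd : ¬ r ∣ m1)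
    (hm : m = r ^ a * m1) (hD : m ^ 2 ≤ sg m * φ m + D) : m ^ 2 ≤ r ^ (a + 1) * D := by
  have h := sq_le_pow_mul hr ha hnd
  rw [← hm] at h
  have h2 : r ^ (a + 1) * m ^ 2 ≤ r ^ (a + 1) * (sg m * φ m + D) := Nat.mul_le_mul_left _ hD
  rw [mul_add] at h2
  omega

/-- `n = p ^ k`, `k ≥ 2`, is impossible -/
lemma pk_low {n p k : ℕ} (hs : Sol n) (hp : p.Prime) (h3 : 3 ≤ p) (hk : 2 ≤ k) (hn : n = p ^ k) :
    False := by
  obtain ⟨T, e1, e2, e3, e4, _, e5, _⟩ := pp_facts hp (show 0 < k by omega)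
  have hT := e5 hk
  set P1 := p ^ (k - 1) with hP1
  have hP1p : p ≤ P1 := by
    rw [hP1]; calc p = p ^ 1 := (pow_one p).symm
      _ ≤ _ := Nat.pow_le_pow_right hp.pos (by omega)
  obtain ⟨q, rfl⟩ : ∃ q, p = q + 1 := ⟨p - 1, by omega⟩
  simp only [Nat.add_sub_cancel] at e2
  obtain ⟨f1, f2⟩ := hs
  rw [hn] at f1 f2
  have hN : (q + 1) ^ k = (q + 1) * P1 := e1
  have hphi : φ ((q + 1) ^ k) = q * P1 := by
    have : φ ((q + 1) ^ k) + P1 = (q + 1) * P1 := by rw [e4, hN]
    have h2 : (q + 1) * P1 = q * P1 + P1 := by ring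
    omega
  have hsg : sg ((q + 1) ^ k) = (q + 1) * P1 + P1 + T := by rw [e3, hN]
  have hD : ((q + 1) ^ k + 12) ^ 2 ≤
      sg ((q + 1) ^ k + 12) * φ ((q + 1) ^ k + 12) + P1 := by
    rw [f1, f2, hphi, hsg, hN]
    have : P1 = q * T + 1 := e2.symm
    nlinarith
  have hm : 1 < (q + 1) ^ k + 12 := by omega
  rcases two_blocks hm (fun r a m1 hr ha hnd hmm => block_le hr ha hnd hmm hD) with h | h
  · obtain ⟨r, a, hr, ha, hmm⟩ := h
    obtain ⟨T', g1, g2, g3, g4, _⟩ := pp_facts hr ha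
    rw [← hmm] at g4
    rw [f1, hphi, hN] at g4
    have h2 : (q + 1) * P1 = q * P1 + P1 := by ring
    have h5 : r ^ (a - 1) = (q + 1) ^ (k - 1) := by rw [← hP1]; omega
    have := pp_unique hp hk hr ha h5
    omega
  · rw [hN] at h
    nlinarith

/-- `n + 12 = p ^ k`, `k ≥ 2`, is impossible -/
lemma pk_up {n p k : ℕ} (hs : Sol n) (h1 : 1 < n) (hp : p.Prime) (h3 : 3 ≤ p) (hk : 2 ≤ k)
    (hn : n + 12 = p ^ k) : False := by
  obtain ⟨T, e1, e2, e3, e4, _, e5, _⟩ := pp_facts hp (show 0 < k by omega)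
  have hT := e5 hk
  set P1 := p ^ (k - 1) with hP1
  have hP1p : p ≤ P1 := by
    rw [hP1]; calc p = p ^ 1 := (pow_one p).symm
      _ ≤ _ := Nat.pow_le_pow_right hp.pos (by omega)
  obtain ⟨f1, f2⟩ := hs
  rcases Nat.lt_or_ge p 5 with h5 | h5
  · -- `p = 3`
    have hp3 : p = 3 := by
      have : p ≠ 4 := by rintro rfl; exact absurd hp (by norm_num)
      omega
    subst hp3
    have hodd3 : P1 % 2 = 1 := by rw [hP1, Nat.pow_mod]; norm_num
    have hk3 : 3 ≤ k := by
      by_contra hcon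
      have : k = 2 := by omega
      subst this
      norm_num at hn; omega
    have hP9 : 9 ≤ P1 := by
      rw [hP1]; calc 9 = 3 ^ 2 := by norm_num
        _ ≤ _ := Nat.pow_le_pow_right (by norm_num) (by omega)
    have hP3 : P1 % 3 = 0 := by
      have : (3 : ℕ) ∣ P1 := hP1 ▸ dvd_pow_self 3 (by omega)
      omega
    have hnm : n = 3 * (P1 - 4) := by omega
    have hphin : φ n = 2 * φ (P1 - 4) := by
      rw [hnm, phi_three_mul]; omega
    rw [hn] at f1
    have h6 : φ (P1 - 4) + 2 = P1 - 4 := by omega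
    have := two_dvd_phi (m := P1 - 4) (by omega)
    omega
  · obtain ⟨q, rfl⟩ : ∃ q, p = q + 1 := ⟨p - 1, by omega⟩
    simp only [Nat.add_sub_cancel] at e2
    have hN : n + 12 = (q + 1) * P1 := by rw [hn, e1]
    rw [hn] at f1 f2
    have h2 : (q + 1) * P1 = q * P1 + P1 := by ring
    have hphi : φ n + 12 = q * P1 := by
      have : φ ((q + 1) ^ k) + P1 = (q + 1) * P1 := by rw [e4, e1]
      omega
    have hsg : sg n + 12 = (q + 1) * P1 + P1 + T := by rw [← f2, e3, e1]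
    have h4T : 4 * T ≤ P1 - 1 := by
      have : 4 * T ≤ q * T := Nat.mul_le_mul_right _ (by omega)
      omega
    have hD : n ^ 2 ≤ sg n * φ n + (4 * P1 - 3) := by
      obtain ⟨D', hD'⟩ : ∃ D', 4 * P1 - 3 = D' := ⟨_, rfl⟩
      rw [hD']
      have hD2 : D' + 3 = 4 * P1 := by omega
      have h7 : P1 = q * T + 1 := e2.symm
      have z1 : (n : ℤ) = (q + 1) * P1 - 12 := by have := hN; zify at this; linarith
      have z2 : (φ n : ℤ) = q * P1 - 12 := by have := hphi; zify at this; linarith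
      have z3 : (sg n : ℤ) = (q + 1) * P1 + P1 + T - 12 := by
        have := hsg; zify at this; linarith
      have z4 : (D' : ℤ) = 4 * P1 - 3 := by have := hD2; zify at this; linarith
      have z5 : (P1 : ℤ) = q * T + 1 := by exact_mod_cast h7
      have z6 : 4 * (T : ℤ) ≤ P1 - 1 := by
        have : 4 * T + 1 ≤ P1 := by omega
        zify at this; linarith
      zify
      rw [z1, z2, z3, z4]
      have z7 : (q : ℤ) * P1 * T = P1 * (P1 - 1) := by rw [z5]; ring
      have key : (((q : ℤ) + 1) * P1 + P1 + T - 12) * (q * P1 - 12) + (4 * P1 - 3) -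
          ((q + 1) * P1 - 12) ^ 2 = 3 * P1 - 3 - 12 * T := by
        linear_combination z7
      linarith
    rcases two_blocks h1 (fun r a m1 hr ha hnd hmm => block_le hr ha hnd hmm hD) with h | h
    · obtain ⟨r, a, hr, ha, hmm⟩ := h
      obtain ⟨T', g1, g2, g3, g4, _⟩ := pp_facts hr ha
      rw [← hmm] at g4
      have h5 : r ^ (a - 1) = (q + 1) ^ (k - 1) := by rw [← hP1]; omega
      have := pp_unique hp hk hr ha h5
      omega
    · have h8 : (q + 1) * P1 ≤ 4 * P1 + 9 := by omega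
      have hq : q = 4 := by
        by_contra hcon
        have : 6 ≤ q := by
          have : q + 1 ≠ 6 := by intro h'; rw [h'] at hp; exact absurd hp (by norm_num)
          omega
        have : 7 * P1 ≤ (q + 1) * P1 := Nat.mul_le_mul_right _ (by omega)
        omega
      subst hq
      have hk2 : k = 2 := by
        by_contra hcon
        have : 25 ≤ P1 := by
          rw [hP1]; calc 25 = (4 + 1) ^ 2 := by norm_num
            _ ≤ _ := Nat.pow_le_pow_right (by norm_num) (by omega)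
        omega
      subst hk2
      have hn13 : n = 13 := by norm_num at hn; omega
      subst hn13
      have e13 : φ 13 = 12 := by decide +kernel
      rw [e13] at hphi
      norm_num [hP1] at hphi

end Pool.Agent.Helper29.PhiSig
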