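import Pool.Agent.Helper29.PhiSig.TwoFour

/-!
Small cases and products of two primes (helper29).
-/

namespace Pool.Agent.Helper29.PhiSig

open Nat ArithmeticFunction

/-- Boolean test -/
def tst (n : ℕ) : Bool :=
  (decide (n ≤ 1)) || (decide (φ n + 1 = n)) || !(decide (φ (n + 12) = φ n + 12)) ||
  !(decide (∑ d ∈ (n + 12).divisors, d = ∑ d ∈ n.divisors, d + 12)) || decide (n = 65) ||
  decide (n = 209)

set_option maxRecDepth 100000 in
lemma small_aux : (List.range 500).all tst = true := by
  decide +kernel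

lemma small {n : ℕ} (hn : n < 500) (h1 : 1 < n) (hnp : ¬ n.Prime) (hs : Sol n) :
    n = 65 ∨ n = 209 := by
  have h := List.all_eq_true.1 small_aux n (List.mem_range.2 hn)
  unfold tst at h
  have hp : ¬ (φ n + 1 = n) := by
    intro h2
    exact hnp ((Nat.totient_eq_iff_prime (by omega)).1 (by omega))
  have h3 := hs.2
  rw [sg_eq, sg_eq] at h3
  simp only [hs.1, h3, decide_true, Bool.not_true, Bool.or_false, hp, decide_false,
    show ¬ n ≤ 1 by omega, Bool.false_or, Bool.or_eq_true, decide_eq_true_eq] at h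
  exact h

lemma gg_eq_two {n : ℕ} (h1 : 1 < n) (h : gg n = 2) :
    ∃ r t, r.Prime ∧ t.Prime ∧ r ≠ t ∧ n = r * t := by
  have hnp : ¬ n.Prime := fun hp => by rw [gg_prime hp] at h; omega
  have hr : (Nat.minFac n).Prime := Nat.minFac_prime (by omega)
  obtain ⟨e, he⟩ := Nat.minFac_dvd n
  set r := Nat.minFac n with hrdef
  have he1 : 1 < e := by
    rcases Nat.lt_or_ge 1 e with h2 | h2
    · exact h2
    · exfalso
      interval_cases e
      · omega
      · rw [mul_one] at he; exact hnp (he ▸ hr)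
  have helt : e < n := by
    rw [he]; have := hr.two_le; nlinarith
  have hemem : e ∈ n.properDivisors := Nat.mem_properDivisors.2 ⟨⟨r, by rw [mul_comm]; exact he⟩, helt⟩
  by_cases hep : e.Prime
  · refine ⟨r, e, hr, hep, ?_, he⟩
    rintro h3
    have h4 := sg_add_phi n
    have e4 : n = r ^ 2 := by rw [he, ← h3]; ring
    rw [h, e4, sg_prime_pow hr, Nat.totient_prime_pow hr two_pos] at h4
    simp [Finset.sum_range_succ] at h4
    obtain ⟨a, ha⟩ : ∃ a, r = a + 1 := ⟨r - 1, by have := hr.two_le; omega⟩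
    rw [ha] at h4
    simp at h4
    nlinarith
  · exfalso
    have hf : (Nat.minFac e).Prime := Nat.minFac_prime (by omega)
    have hfe : Nat.minFac e ∣ e := Nat.minFac_dvd e
    set f := Nat.minFac e
    have hfe' : f ≠ e := fun h5 => hep (h5 ▸ hf)
    have hflt : f < n := lt_of_le_of_lt (Nat.le_of_dvd (by omega) hfe) helt
    have hfmem : f ∈ n.properDivisors :=
      Nat.mem_properDivisors.2 ⟨hfe.trans ⟨r, by rw [mul_comm]; exact he⟩, hflt⟩
    have hsub : ({f, e} : Finset ℕ) ⊆ n.properDivisors := by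
      intro x hx
      simp only [Finset.mem_insert, Finset.mem_singleton] at hx
      rcases hx with rfl | rfl
      · exact hfmem
      · exact hemem
    have h6 : ∑ d ∈ ({f, e} : Finset ℕ), (d - φ d) ≤ gg n :=
      Finset.sum_le_sum_of_subset hsub
    rw [Finset.sum_pair hfe', Nat.totient_prime hf] at h6
    have h7 := self_sub_phi_ge_two he1 hep
    have := hf.two_le
    omega

/-- a number with `2 < gg n ≤ 6` is at most `125` -/
lemma gg_le_six {n : ℕ} (h1 : 1 < n) (h : gg n ≤ 6) (h2 : 2 < gg n) : n ≤ 125 := by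
  have hnp : ¬ n.Prime := fun hp => by rw [gg_prime hp] at h2; omega
  have hr : (Nat.minFac n).Prime := Nat.minFac_prime (by omega)
  obtain ⟨e, he⟩ := Nat.minFac_dvd n
  set r := Nat.minFac n with hrdef
  have he1 : 1 < e := by
    rcases Nat.lt_or_ge 1 e with h2 | h2
    · exact h2
    · exfalso
      interval_cases e
      · omega
      · rw [mul_one] at he; exact hnp (he ▸ hr)
  have helt : e < n := by
    rw [he]; have := hr.two_le; nlinarith
  have hemem : e ∈ n.properDivisors := Nat.mem_properDivisors.2 ⟨⟨r, by rw [mul_comm]; exact he⟩, helt⟩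
  by_cases hep : e.Prime
  · exfalso
    by_cases h3 : r = e
    · have h4 := sg_add_phi n
      have e4 : n = r ^ 2 := by rw [he, ← h3]; ring
      rw [e4, sg_prime_pow hr, Nat.totient_prime_pow hr two_pos] at h4
      simp [Finset.sum_range_succ] at h4
      obtain ⟨a, ha⟩ : ∃ a, r = a + 1 := ⟨r - 1, by have := hr.two_le; omega⟩
      rw [e4] at h2
      rw [ha] at h4 h2
      simp at h4
      nlinarith
    · have := gg_two_primes hr hep h3
      rw [← he] at this
      omega
  · have hf : (Nat.minFac e).Prime := Nat.minFac_prime (by omega)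
    have hfe : Nat.minFac e ∣ e := Nat.minFac_dvd e
    have hff : Nat.minFac e ^ 2 ≤ e := Nat.minFac_sq_le_self (by omega) hep
    have hrf : r ≤ Nat.minFac e :=
      Nat.minFac_le_of_dvd hf.two_le (hfe.trans ⟨r, by rw [mul_comm]; exact he⟩)
    set f := Nat.minFac e
    have hfe' : f ≠ e := fun h5 => hep (h5 ▸ hf)
    have hflt : f < n := lt_of_le_of_lt (Nat.le_of_dvd (by omega) hfe) helt
    have hfmem : f ∈ n.properDivisors :=
      Nat.mem_properDivisors.2 ⟨hfe.trans ⟨r, by rw [mul_comm]; exact he⟩, hflt⟩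
    have hsub : ({f, e} : Finset ℕ) ⊆ n.properDivisors := by
      intro x hx
      simp only [Finset.mem_insert, Finset.mem_singleton] at hx
      rcases hx with rfl | rfl
      · exact hfmem
      · exact hemem
    have h6 : ∑ d ∈ ({f, e} : Finset ℕ), (d - φ d) ≤ gg n :=
      Finset.sum_le_sum_of_subset hsub
    rw [Finset.sum_pair hfe', Nat.totient_prime hf] at h6
    have h7 := hf.two_le
    have h8 : e ≤ f * (e - φ e) :=
      le_mul_def hf hfe (by have := Nat.totient_le e; omega)
    have h9 : e - φ e ≤ 5 := by omega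
    have h10 : e ≤ f * 5 := h8.trans (Nat.mul_le_mul_left _ h9)
    have h11 : f ≤ 5 := by nlinarith
    have h12 : r ≤ 5 := hrf.trans h11
    rw [he]
    calc r * e ≤ 5 * (f * 5) := Nat.mul_le_mul h12 h10
      _ ≤ 5 * (5 * 5) := by gcongr
      _ = 125 := by norm_num

/-- the case of two products of two primes -/
lemma quad {n a b c d : ℕ} (hφ : φ (n + 12) = φ n + 12) (ha : a.Prime) (hb : b.Prime)
    (hc : c.Prime) (hd : d.Prime) (hab : a < b) (hcd : c < d) (h1 : n = a * b)
    (h2 : n + 12 = c * d) : c = a + 2 ∧ d = a + 6 ∧ b = a + 8 := by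
  have c1 : a.Coprime b := (Nat.coprime_primes ha hb).2 hab.ne
  have c2 : c.Coprime d := (Nat.coprime_primes hc hd).2 hcd.ne
  have e1 : φ n + a + b = n + 1 := by
    rw [h1, Nat.totient_mul c1, Nat.totient_prime ha, Nat.totient_prime hb]
    obtain ⟨a', rfl⟩ : ∃ a', a = a' + 1 := ⟨a - 1, by have := ha.two_le; omega⟩
    obtain ⟨b', rfl⟩ : ∃ b', b = b' + 1 := ⟨b - 1, by have := hb.two_le; omega⟩
    simp only [Nat.add_sub_cancel]; ring
  have e2 : φ (n + 12) + c + d = n + 12 + 1 := by
    rw [h2, Nat.totient_mul c2, Nat.totient_prime hc, Nat.totient_prime hd]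
    obtain ⟨a', rfl⟩ : ∃ a', c = a' + 1 := ⟨c - 1, by have := hc.two_le; omega⟩
    obtain ⟨b', rfl⟩ : ∃ b', d = b' + 1 := ⟨d - 1, by have := hd.two_le; omega⟩
    simp only [Nat.add_sub_cancel]; ring
  have hsum : a + b = c + d := by omega
  have hprod : c * d = a * b + 12 := by omega
  have hac : a < c := by
    by_contra hcon
    have hca : c ≤ a := by omega
    obtain ⟨x, rfl⟩ : ∃ x, a = c + x := ⟨a - c, by omega⟩
    have hdb : d = b + x := by omega
    subst hdb
    nlinarith
  obtain ⟨x, rfl⟩ : ∃ x, c = a + x := ⟨c - a, by omega⟩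
  obtain ⟨y, rfl⟩ : ∃ y, d = a + y := ⟨d - a, by omega⟩
  have hb' : b = a + x + y := by omega
  subst hb'
  have hxy : x * y = 12 := by nlinarith
  have hx0 : 0 < x := by omega
  have hxly : x < y := by omega
  have hx3 : x ≤ 3 := by nlinarith
  have ha22 := ha.two_le
  have ha2 := ha.eq_two_or_odd
  have hc2 := hc.eq_two_or_odd
  have hd2 := hd.eq_two_or_odd
  interval_cases x
  · have : y = 12 := by omega
    subst this
    have : a = 2 := by omega
    subst this
    exact absurd hd (by norm_num)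
  · have : y = 6 := by omega
    subst this
    exact ⟨rfl, rfl, by omega⟩
  · have : y = 4 := by omega
    subst this
    have : a = 2 := by omega
    subst this
    exact absurd hd (by norm_num)

/-- The quadruple conclusion -/
def Quad (n : ℕ) : Prop :=
  ∃ p, p.Prime ∧ (p + 2).Prime ∧ (p + 6).Prime ∧ (p + 8).Prime ∧ n = p * (p + 8)

lemma Quad_of_gg {n : ℕ} (h1 : 1 < n) (hs : Sol n) (h : gg n = 2) : Quad n := by
  have h' : gg (n + 12) = 2 := by rw [hs.gg_eq, h]
  obtain ⟨a, b, ha, hb, hab, e1⟩ := gg_eq_two h1 h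
  obtain ⟨c, d, hc, hd, hcd, e2⟩ := gg_eq_two (by omega) h'
  have main : ∀ a b c d : ℕ, a.Prime → b.Prime → c.Prime → d.Prime → a < b → c < d →
      n = a * b → n + 12 = c * d → Quad n := by
    intro a b c d ha hb hc hd hab hcd e1 e2
    obtain ⟨r1, r2, r3⟩ := quad hs.1 ha hb hc hd hab hcd e1 e2
    subst r1 r2 r3
    exact ⟨a, ha, hc, hd, hb, e1⟩
  rcases lt_or_gt_of_ne hab with g1 | g1 <;> rcases lt_or_gt_of_ne hcd with g2 | g2
  · exact main a b c d ha hb hc hd g1 g2 e1 e2
  · exact main a b d c ha hb hd hc g1 g2 e1 (by rw [e2, mul_comm])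
  · exact main b a c d hb ha hc hd g1 g2 (by rw [e1, mul_comm]) e2
  · exact main b a d c hb ha hd hc g1 g2 (by rw [e1, mul_comm]) (by rw [e2, mul_comm])

end Pool.Agent.Helper29.PhiSig
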