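import Pool.Agent.Helper29.PhiSig.TwoFour

/-!
Neither prime is three (helper29).
-/

namespace Pool.Agent.Helper29.PhiSig

open Nat ArithmeticFunction

/-- if `9 ∣ m` then `52 m ≤ 18 σ(m) + 39 φ(m)` -/
lemma nine_ineq {m : ℕ} (h : 9 ∣ m) : 52 * m ≤ 18 * sg m + 39 * φ m := by
  rcases Nat.eq_zero_or_pos m with rfl | hm
  · simp
  obtain ⟨a, m1, hnd, hmm⟩ := Nat.exists_eq_pow_mul_and_not_dvd hm.ne' 3 (by norm_num)
  have ha : 2 ≤ a := by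
    by_contra hcon
    have h1 : 3 ^ 2 ∣ 3 ^ a * m1 := by rw [← hmm]; exact h
    have h2 : (3 ^ 2).Coprime m1 := cop 2 Nat.prime_three hnd
    have h3 := h2.dvd_of_dvd_mul_right h1
    have := (Nat.pow_dvd_pow_iff_le_right (by norm_num)).1 h3
    omega
  obtain ⟨u, hu, hu4⟩ : ∃ u, 3 ^ (a - 1) = u ∧ 3 ≤ u :=
    ⟨_, rfl, by calc 3 = 3 ^ 1 := by norm_num
                  _ ≤ _ := Nat.pow_le_pow_right (by norm_num) (by omega)⟩
  have hc := cop a Nat.prime_three hnd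
  have e1 : 3 ^ a = 3 * u := by rw [← hu, ← pow_succ']; congr 1; omega
  have e2 : φ (3 ^ a) = 2 * u := by
    rw [Nat.totient_prime_pow Nat.prime_three (by omega), hu]; norm_num; ring
  have e3 : 2 * sg (3 ^ a) + 1 = 9 * u := by
    have := sg_geom (k := a) Nat.prime_three
    rw [pow_succ, e1] at this
    norm_num at this
    rw [e1]
    omega
  have e4 := two_mul_le m1
  rw [hmm, sg_mul hc, Nat.totient_mul hc, e2]
  obtain ⟨s, hs⟩ : ∃ s, sg (3 ^ a) = s := ⟨_, rfl⟩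
  rw [hs] at e3 ⊢
  rw [e1]
  have h1 : 78 * u * (2 * m1) ≤ 78 * u * (sg m1 + φ m1) := Nat.mul_le_mul_left _ e4
  have h2 : 78 * u * sg m1 ≤ 18 * s * sg m1 := Nat.mul_le_mul_right _ (by omega)
  calc 52 * (3 * u * m1) = 78 * u * (2 * m1) := by ring
    _ ≤ 78 * u * (sg m1 + φ m1) := h1
    _ = 78 * u * sg m1 + 39 * (2 * u * φ m1) := by ring
    _ ≤ 18 * s * sg m1 + 39 * (2 * u * φ m1) := by omega
    _ = 18 * (s * sg m1) + 39 * (2 * u * φ m1) := by ring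

/-- data on `Q = q ^ l` with `q ≥ 7` -/
structure QData (Q Q1 T : ℕ) : Prop where
  h7 : 7 * Q1 ≤ Q
  hT : 6 * T + 1 ≤ Q1
  hs : sg Q = Q + Q1 + T
  hf : φ Q + Q1 = Q
  hsf : sg Q * φ Q + Q1 = Q ^ 2

lemma qdata {q l : ℕ} (hq : q.Prime) (h7 : 7 ≤ q) (hl : 0 < l) :
    ∃ T, QData (q ^ l) (q ^ (l - 1)) T ∧ (l = 1 → T = 0) ∧ (2 ≤ l → 1 ≤ T) ∧
      (3 ≤ l → q + 1 ≤ T) ∧ q ^ l = q * q ^ (l - 1) := by
  obtain ⟨T, e1, e2, e3, e4, k1, k2, k3⟩ := pp_facts hq hl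
  have h3 := sg_phi_prime_pow hq hl
  have e5 : q ^ (2 * l) = (q ^ l) ^ 2 := by rw [← pow_mul]; congr 1; ring
  rw [e5] at h3
  refine ⟨T, ⟨?_, ?_, e3, e4, h3⟩, k1, k2, k3, e1⟩
  · rw [e1]; exact Nat.mul_le_mul_right _ h7
  · have : 6 * T ≤ (q - 1) * T := Nat.mul_le_mul_right _ (by omega)
    omega

/-- powers of three: `A = 3^(k-1)` -/
lemma three_pow {k : ℕ} (hk : 2 ≤ k) : ∃ A, 3 ≤ A ∧ A % 3 = 0 ∧ 3 ^ k = 3 * A ∧
    φ (3 ^ k) = 2 * A ∧ 2 * sg (3 ^ k) + 1 = 9 * A := by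
  refine ⟨3 ^ (k - 1), ?_, ?_, ?_, ?_, ?_⟩
  · calc 3 = 3 ^ 1 := by norm_num
      _ ≤ _ := Nat.pow_le_pow_right (by norm_num) (by omega)
  · have : (3 : ℕ) ∣ 3 ^ (k - 1) := dvd_pow_self 3 (by omega)
    omega
  · rw [← pow_succ']; congr 1; omega
  · rw [Nat.totient_prime_pow Nat.prime_three (by omega)]; norm_num; ring
  · have := sg_geom (k := k) Nat.prime_three
    have e : 3 ^ (k + 1) = 9 * 3 ^ (k - 1) := by
      rw [show k + 1 = 2 + (k - 1) by omega, pow_add]; norm_num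
    rw [e] at this
    omega

/-- the main inequality for `A ≥ 3` -/
lemma ineq_main {A Q Q1 : ℤ} (hA : 3 ≤ A) (hQ : 7 ≤ Q) (hQ1 : 1 ≤ Q1) (h7 : 7 * Q1 ≤ Q) :
    8 * (A * Q) ^ 2 + (A * Q) ^ 2 * 12 / 25 ≤ (9 * A - 1) * A * (Q ^ 2 - Q1) := by
  have h1 : A * Q * Q * 3 ≤ (A * Q) ^ 2 := by
    nlinarith [mul_nonneg (by nlinarith : (0 : ℤ) ≤ A * (Q * Q)) (by linarith : (0:ℤ) ≤ A - 3)]
  have h2 : 49 * (A * A * Q1) ≤ (A * Q) ^ 2 := by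
    have : 49 * Q1 ≤ Q ^ 2 := by nlinarith
    nlinarith [mul_nonneg (by nlinarith : (0:ℤ) ≤ A * A) (by linarith : (0:ℤ) ≤ Q ^ 2 - 49 * Q1)]
  have h3 : (9 * A - 1) * A * (Q ^ 2 - Q1) =
      9 * (A * Q) ^ 2 - A * Q * Q - 9 * (A * A * Q1) + A * Q1 := by
    ring
  have h4 : 0 ≤ A * Q1 := by nlinarith
  have h5 : 0 ≤ (A * Q) ^ 2 := by positivity
  rw [h3]
  omega

lemma low_core {A Q Q1 s f S F d g : ℤ} (hA : 3 ≤ A) (hQ : 7 ≤ Q) (hQ1 : 1 ≤ Q1)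
    (h7 : 7 * Q1 ≤ Q) (hs : Q ≤ s) (hf : f + Q1 = Q) (hsf : s * f + Q1 = Q ^ 2)
    (hF : F = A * f + 6) (hS : 8 * S + s = 9 * A * s + g) (hle : S * F ≤ (A * Q + d) ^ 2)
    (hdg : (d = 4 ∧ g = 24) ∨ (d = 2 ∧ g = 8)) : False := by
  have hm := ineq_main hA hQ hQ1 h7
  have e1 : 8 * (S * F) = (9 * A - 1) * A * (Q ^ 2 - Q1) + 6 * ((9 * A - 1) * s) + g * (A * f) + 6 * g := by
    have : 8 * S = (9 * A - 1) * s + g := by linarith
    have h2 : s * f = Q ^ 2 - Q1 := by linarith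
    calc 8 * (S * F) = (8 * S) * F := by ring
      _ = ((9 * A - 1) * s + g) * (A * f + 6) := by rw [this, hF]
      _ = (9 * A - 1) * A * (s * f) + 6 * ((9 * A - 1) * s) + g * (A * f) + 6 * g := by ring
      _ = _ := by rw [h2]
  have h2 : (9 * A - 1) * Q ≤ (9 * A - 1) * s := mul_le_mul_of_nonneg_left hs (by linarith)
  have h3 : 6 * (A * Q) ≤ 7 * (A * f) := by nlinarith
  have h4 : 3 * Q ≤ A * Q := by nlinarith
  have h5 : 0 ≤ (A * Q) ^ 2 := by positivity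
  have h6 : 0 ≤ (A * Q) ^ 2 * 12 / 25 := by positivity
  have h7 : 21 ≤ A * Q := by nlinarith
  rcases hdg with ⟨rfl, rfl⟩ | ⟨rfl, rfl⟩ <;> nlinarith

lemma up_core {A Q Q1 T s f S F d g : ℤ} (hA : 3 ≤ A) (hQ : 7 ≤ Q) (hQ1 : 1 ≤ Q1)
    (h7 : 7 * Q1 ≤ Q) (hT : 6 * T + 1 ≤ Q1) (hs : s = Q + Q1 + T) (hf : f + Q1 = Q)
    (hsf : s * f + Q1 = Q ^ 2)
    (hF : F + 6 = A * f) (hS : 8 * S + s + g = 9 * A * s) (hle : S * F ≤ (A * Q - d) ^ 2)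
    (hg : 0 ≤ g) :
    (A * Q) ^ 2 * 12 / 25 ≤ 63 * (A * Q) + g * (A * Q) - 6 * g - 16 * d * (A * Q) + 8 * d ^ 2 := by
  have hm := ineq_main hA hQ hQ1 h7
  have e1 : 8 * (S * F) = (9 * A - 1) * A * (Q ^ 2 - Q1) - 6 * ((9 * A - 1) * s) - g * (A * f) + 6 * g := by
    have : 8 * S = (9 * A - 1) * s - g := by linarith
    have h2 : s * f = Q ^ 2 - Q1 := by linarith
    have h3 : F = A * f - 6 := by linarith
    calc 8 * (S * F) = (8 * S) * F := by ring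
      _ = ((9 * A - 1) * s - g) * (A * f - 6) := by rw [this, h3]
      _ = (9 * A - 1) * A * (s * f) - 6 * ((9 * A - 1) * s) - g * (A * f) + 6 * g := by ring
      _ = _ := by rw [h2]
  have h6s : 6 * s ≤ 7 * Q := by rw [hs]; linarith
  have h2 : 6 * ((9 * A - 1) * s) ≤ 63 * (A * Q) := by
    have hs0 : 0 ≤ s := by nlinarith
    nlinarith [mul_le_mul_of_nonneg_left h6s (by linarith : (0:ℤ) ≤ 9 * A)]
  have h3 : g * (A * f) ≤ g * (A * Q) := by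
    apply mul_le_mul_of_nonneg_left _ hg
    apply mul_le_mul_of_nonneg_left _ (by linarith)
    linarith
  nlinarith

lemma QData.pos {Q Q1 T : ℕ} (h : QData Q Q1 T) : 1 ≤ Q1 ∧ 7 ≤ Q := by
  have := h.h7; have := h.hT; omega

/-- `n = 3^k Q`, `k ≥ 2` -/
lemma A_low {n k Q Q1 T : ℕ} (hs : Sol n) (hQ : QData Q Q1 T) (hc : ¬ 3 ∣ Q) (hk : 2 ≤ k)
    (hn : n = 3 ^ k * Q) : False := by
  obtain ⟨A, hA3, hA, e1, e2, e3⟩ := three_pow hk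
  have hcop : (3 ^ k).Coprime Q := cop k Nat.prime_three hc
  obtain ⟨f1, f2⟩ := hs
  have hN : n + 12 = 3 * (A * Q + 4) := by rw [hn, e1]; ring
  have hmod : (A * Q + 4) % 3 ≠ 0 := by
    have : A * Q % 3 = 0 := by rw [Nat.mul_mod, hA]; simp
    omega
  rw [hN, phi_three_mul hmod, hn, Nat.totient_mul hcop, e2] at f1
  rw [hN, sg_three_mul hmod, hn, sg_mul hcop] at f2
  have hle := sg_phi_le (A * Q + 4)
  obtain ⟨hQ11, hQ7⟩ := hQ.pos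
  have a1 := hQ.h7
  have a2 := hQ.hs
  have a3 := hQ.hf
  have a4 := hQ.hsf
  have g1 : φ (A * Q + 4) = A * φ Q + 6 := by
    have : 2 * A * φ Q = 2 * (A * φ Q) := by ring
    omega
  have g2 : 8 * sg (A * Q + 4) + sg Q = 9 * A * sg Q + 24 := by
    have h1 : (2 * sg (3 ^ k) + 1) * sg Q = 9 * A * sg Q := by rw [e3]
    have h2 : (2 * sg (3 ^ k) + 1) * sg Q = 2 * (sg (3 ^ k) * sg Q) + sg Q := by ring
    omega
  zify at hA3 hQ7 hQ11 a1 a2 a3 a4 g1 g2 hle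
  exact low_core hA3 hQ7 hQ11 a1 (by linarith) a3 a4 g1 g2 hle (Or.inl ⟨rfl, rfl⟩)

/-- `n + 12 = 3^k Q`, `k ≥ 2` -/
lemma A_up {n k Q Q1 T : ℕ} (hs : Sol n) (hQ : QData Q Q1 T) (hc : ¬ 3 ∣ Q) (hk : 2 ≤ k)
    (hn : n + 12 = 3 ^ k * Q) : n < 500 := by
  obtain ⟨A, hA3, hA, e1, e2, e3⟩ := three_pow hk
  have hcop : (3 ^ k).Coprime Q := cop k Nat.prime_three hc
  obtain ⟨f1, f2⟩ := hs
  obtain ⟨hQ11, hQ7⟩ := hQ.pos
  have hAQ : 21 ≤ A * Q := Nat.mul_le_mul hA3 hQ7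
  have hN1 : n + 12 = 3 * (A * Q) := by rw [hn, e1]; ring
  obtain ⟨x, hx⟩ : ∃ x, A * Q = x + 4 := ⟨A * Q - 4, by omega⟩
  have hN : n = 3 * x := by omega
  have hmod : x % 3 ≠ 0 := by
    have : A * Q % 3 = 0 := by rw [Nat.mul_mod, hA]; simp
    omega
  rw [hn, Nat.totient_mul hcop, e2, hN, phi_three_mul hmod] at f1
  rw [hn, sg_mul hcop, hN, sg_three_mul hmod] at f2
  have hle := sg_phi_le x
  have a1 := hQ.h7
  have a2 := hQ.hs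
  have a3 := hQ.hf
  have a4 := hQ.hsf
  have a5 := hQ.hT
  have g1 : φ x + 6 = A * φ Q := by
    have : 2 * A * φ Q = 2 * (A * φ Q) := by ring
    omega
  have g2 : 8 * sg x + sg Q + 24 = 9 * A * sg Q := by
    have h1 : (2 * sg (3 ^ k) + 1) * sg Q = 9 * A * sg Q := by rw [e3]
    have h2 : (2 * sg (3 ^ k) + 1) * sg Q = 2 * (sg (3 ^ k) * sg Q) + sg Q := by ring
    omega
  have hxx : (x : ℤ) = A * Q - 4 := by zify at hx; linarith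
  zify at hA3 hQ7 hQ11 a1 a2 a3 a4 a5 g1 g2 hle
  rw [hxx] at hle
  have h := up_core hA3 hQ7 hQ11 a1 a5 a2 a3 a4 g1 g2 hle (by norm_num)
  have hb : (A * Q : ℤ) < 100 := by
    by_contra hcon
    push Not at hcon
    have : (A * Q : ℤ) * 100 ≤ (A * Q) ^ 2 := by nlinarith
    omega
  have : A * Q < 100 := by exact_mod_cast hb
  omega

/-- `m = 3^k Q`, `k ≥ 2`, halved equations -/
lemma B_low {m k Q Q1 T : ℕ} (h1 : φ (m + 6) = φ m + 12) (h2 : sg (m + 6) = sg m + 4)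
    (hQ : QData Q Q1 T) (hc : ¬ 3 ∣ Q) (hk : 2 ≤ k)
    (hn : m = 3 ^ k * Q) : False := by
  obtain ⟨A, hA3, hA, e1, e2, e3⟩ := three_pow hk
  have hcop : (3 ^ k).Coprime Q := cop k Nat.prime_three hc
  have hN : m + 6 = 3 * (A * Q + 2) := by rw [hn, e1]; ring
  have hmod : (A * Q + 2) % 3 ≠ 0 := by
    have : A * Q % 3 = 0 := by rw [Nat.mul_mod, hA]; simp
    omega
  rw [hN, phi_three_mul hmod, hn, Nat.totient_mul hcop, e2] at h1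
  rw [hN, sg_three_mul hmod, hn, sg_mul hcop] at h2
  have hle := sg_phi_le (A * Q + 2)
  obtain ⟨hQ11, hQ7⟩ := hQ.pos
  have a1 := hQ.h7
  have a2 := hQ.hs
  have a3 := hQ.hf
  have a4 := hQ.hsf
  have g1 : φ (A * Q + 2) = A * φ Q + 6 := by
    have : 2 * A * φ Q = 2 * (A * φ Q) := by ring
    omega
  have g2 : 8 * sg (A * Q + 2) + sg Q = 9 * A * sg Q + 8 := by
    have h1 : (2 * sg (3 ^ k) + 1) * sg Q = 9 * A * sg Q := by rw [e3]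
    have h2 : (2 * sg (3 ^ k) + 1) * sg Q = 2 * (sg (3 ^ k) * sg Q) + sg Q := by ring
    omega
  zify at hA3 hQ7 hQ11 a1 a2 a3 a4 g1 g2 hle
  exact low_core hA3 hQ7 hQ11 a1 (by linarith) a3 a4 g1 g2 hle (Or.inr ⟨rfl, rfl⟩)

/-- `m + 6 = 3^k Q`, `k ≥ 2`, halved equations -/
lemma B_up {m k Q Q1 T : ℕ} (h1 : φ (m + 6) = φ m + 12) (h2 : sg (m + 6) = sg m + 4)
    (hQ : QData Q Q1 T) (hc : ¬ 3 ∣ Q) (hk : 2 ≤ k)
    (hn : m + 6 = 3 ^ k * Q) : 2 * m < 500 := by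
  obtain ⟨A, hA3, hA, e1, e2, e3⟩ := three_pow hk
  have hcop : (3 ^ k).Coprime Q := cop k Nat.prime_three hc
  obtain ⟨hQ11, hQ7⟩ := hQ.pos
  have hAQ : 21 ≤ A * Q := Nat.mul_le_mul hA3 hQ7
  have hN1 : m + 6 = 3 * (A * Q) := by rw [hn, e1]; ring
  obtain ⟨x, hx⟩ : ∃ x, A * Q = x + 2 := ⟨A * Q - 2, by omega⟩
  have hN : m = 3 * x := by omega
  have hmod : x % 3 ≠ 0 := by
    have : A * Q % 3 = 0 := by rw [Nat.mul_mod, hA]; simp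
    omega
  rw [hn, Nat.totient_mul hcop, e2, hN, phi_three_mul hmod] at h1
  rw [hn, sg_mul hcop, hN, sg_three_mul hmod] at h2
  have hle := sg_phi_le x
  have a1 := hQ.h7
  have a2 := hQ.hs
  have a3 := hQ.hf
  have a4 := hQ.hsf
  have a5 := hQ.hT
  have g1 : φ x + 6 = A * φ Q := by
    have : 2 * A * φ Q = 2 * (A * φ Q) := by ring
    omega
  have g2 : 8 * sg x + sg Q + 8 = 9 * A * sg Q := by
    have h1 : (2 * sg (3 ^ k) + 1) * sg Q = 9 * A * sg Q := by rw [e3]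
    have h2 : (2 * sg (3 ^ k) + 1) * sg Q = 2 * (sg (3 ^ k) * sg Q) + sg Q := by ring
    omega
  have hxx : (x : ℤ) = A * Q - 2 := by zify at hx; linarith
  zify at hA3 hQ7 hQ11 a1 a2 a3 a4 a5 g1 g2 hle
  rw [hxx] at hle
  have h := up_core hA3 hQ7 hQ11 a1 a5 a2 a3 a4 g1 g2 hle (by norm_num)
  have hb : (A * Q : ℤ) < 83 := by
    by_contra hcon
    push Not at hcon
    have : (A * Q : ℤ) * 83 ≤ (A * Q) ^ 2 := by nlinarith
    omega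
  have : A * Q < 83 := by exact_mod_cast hb
  omega

end Pool.Agent.Helper29.PhiSig
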