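import Pool.Agent.Helper29.PhiSig.Three

/-!
Neither prime is three, second part: exactly one factor three (helper29).
-/

namespace Pool.Agent.Helper29.PhiSig

open Nat ArithmeticFunction

/-- `n = 3 Q` -/
lemma C_low {n Q Q1 T : ℕ} (hs : Sol n) (hQ : QData Q Q1 T) (hc : ¬ 3 ∣ Q)
    (hn : n = 3 * Q) : n < 500 := by
  obtain ⟨f1, f2⟩ := hs
  have hQ3 : Q % 3 ≠ 0 := by omega
  obtain ⟨hQ11, hQ7⟩ := hQ.pos
  have a1 := hQ.h7
  have a2 := hQ.hs
  have a3 := hQ.hf
  have a4 := hQ.hsf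
  have a5 := hQ.hT
  have p1 : φ n = 2 * φ Q := by rw [hn, phi_three_mul hQ3]
  have p2 : sg n = 4 * sg Q := by rw [hn, sg_three_mul hQ3]
  have hN : n + 12 = 3 * (Q + 4) := by omega
  by_cases hmod : (Q + 4) % 3 = 0
  · have h9 : 9 ∣ n + 12 := by omega
    have := nine_ineq h9
    omega
  · exfalso
    rw [hN, phi_three_mul hmod, p1] at f1
    rw [hN, sg_three_mul hmod, p2] at f2
    have g1 : φ (Q + 4) = φ Q + 6 := by omega
    have g2 : sg (Q + 4) = sg Q + 3 := by omega
    have hle := sg_phi_le (Q + 4)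
    rw [g1, g2] at hle
    nlinarith

/-- `n + 12 = 3 Q` -/
lemma C_up {n Q Q1 T : ℕ} (hs : Sol n) (hQ : QData Q Q1 T) (hc : ¬ 3 ∣ Q)
    (hpar : Q % 3 = 1 ∨ Q % 4 = 3) (hn : n + 12 = 3 * Q) : False := by
  obtain ⟨f1, f2⟩ := hs
  have hQ3 : Q % 3 ≠ 0 := by omega
  obtain ⟨hQ11, hQ7⟩ := hQ.pos
  have a1 := hQ.h7
  have a2 := hQ.hs
  have a3 := hQ.hf
  have a4 := hQ.hsf
  have a5 := hQ.hT
  have p1 : φ (n + 12) = 2 * φ Q := by rw [hn, phi_three_mul hQ3]
  have p2 : sg (n + 12) = 4 * sg Q := by rw [hn, sg_three_mul hQ3]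
  obtain ⟨x, hx⟩ : ∃ x, Q = x + 4 := ⟨Q - 4, by omega⟩
  have hN : n = 3 * x := by omega
  by_cases hmod : x % 3 = 0
  · have h9 : 9 ∣ n := by omega
    have := nine_ineq h9
    omega
  · rw [p1, hN, phi_three_mul hmod] at f1
    rw [p2, hN, sg_three_mul hmod] at f2
    rcases hpar with h | h
    · omega
    · have s1 := four_dvd_sg h
      have s2 := four_dvd_sg (m := x) (by omega)
      omega

/-- `m = 3 Q`, halved equations -/
lemma D_low {m Q Q1 T : ℕ} (h1 : φ (m + 6) = φ m + 12) (h2 : sg (m + 6) = sg m + 4)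
    (hQ : QData Q Q1 T) (hc : ¬ 3 ∣ Q) (hn : m = 3 * Q) :
    2 * m < 500 := by
  have hQ3 : Q % 3 ≠ 0 := by omega
  obtain ⟨hQ11, hQ7⟩ := hQ.pos
  have a1 := hQ.h7
  have a2 := hQ.hs
  have a3 := hQ.hf
  have a4 := hQ.hsf
  have a5 := hQ.hT
  have p1 : φ m = 2 * φ Q := by rw [hn, phi_three_mul hQ3]
  have p2 : sg m = 4 * sg Q := by rw [hn, sg_three_mul hQ3]
  have hN : m + 6 = 3 * (Q + 2) := by omega
  by_cases hmod : (Q + 2) % 3 = 0
  · have h9 : 9 ∣ m + 6 := by omega
    have := nine_ineq h9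
    omega
  · exfalso
    rw [hN, phi_three_mul hmod, p1] at h1
    rw [hN, sg_three_mul hmod, p2] at h2
    have g1 : φ (Q + 2) = φ Q + 6 := by omega
    have g2 : sg (Q + 2) = sg Q + 1 := by omega
    have hle := sg_phi_le (Q + 2)
    rw [g1, g2] at hle
    nlinarith

lemma sq_mod_three {x : ℕ} (h : IsSquare x) (h3 : x % 3 ≠ 0) : x % 3 = 1 := by
  obtain ⟨w, rfl⟩ := h
  have : w % 3 = 0 ∨ w % 3 = 1 ∨ w % 3 = 2 := by omega
  rcases this with h' | h' | h' <;> simp [Nat.mul_mod, h'] at h3 ⊢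

lemma last_case {x q : ℕ} (h1 : φ x + 6 = φ (q ^ 4)) (hx : x + 2 = q ^ 4)
    (hq : q = 7 ∨ q = 11) : False := by
  rcases hq with rfl | rfl
  · have : x = 2399 := by norm_num at hx; omega
    subst this
    rw [Nat.totient_prime (by norm_num), Nat.totient_prime_pow (by norm_num) (by norm_num)] at h1
    norm_num at h1
  · have : x = 14639 := by norm_num at hx; omega
    subst this
    rw [Nat.totient_prime (by norm_num), Nat.totient_prime_pow (by norm_num) (by norm_num)] at h1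
    norm_num at h1

/-- the core of the last case -/
lemma E_core {x q l : ℕ} (hq : q.Prime) (hq4 : q % 4 = 3) (hq7 : 7 ≤ q) (hl : 4 ≤ l)
    (hle : l % 2 = 0)
    (h1 : φ x + 6 = φ (q ^ l)) (h2 : sg x + 1 = sg (q ^ l)) (hx : x + 2 = q ^ l) : False := by
  obtain ⟨T, hQ, k1, k2, k3, e1⟩ := qdata hq hq7 (show 0 < l by omega)
  have hTq := k3 (by omega)
  have hQ1b : 49 * q ≤ q ^ (l - 1) := by
    calc 49 * q ≤ (q * q) * q := Nat.mul_le_mul_right _ (Nat.mul_le_mul hq7 hq7)
      _ = q ^ 3 := by ring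
      _ ≤ _ := Nat.pow_le_pow_right hq.pos (by omega)
  set Q1 := q ^ (l - 1) with hQ1
  have a1 := hQ.h7
  have a2 := hQ.hs
  have a3 := hQ.hf
  have a4 := hQ.hsf
  have a5 := hQ.hT
  have hcx : x = φ x + (Q1 + 4) := by omega
  have hbig : ∀ r, r.Prime → r ∣ x → q + 1 ≤ r := by
    intro r hr hrx
    have h5 := le_mul_def hr hrx hcx
    by_contra hcon
    rcases (show r = q ∨ r ≤ q - 1 by omega) with h6 | h6
    · subst h6
      have : r ∣ 2 := by
        have h7 : r ∣ x + 2 := by rw [hx]; exact dvd_pow_self r (by omega)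
        exact (Nat.dvd_add_right hrx).1 h7
      have := Nat.le_of_dvd (by norm_num) this
      omega
    · obtain ⟨p, rfl⟩ : ∃ p, q = p + 1 := ⟨q - 1, by omega⟩
      have h8 : r * (Q1 + 4) ≤ p * (Q1 + 4) := Nat.mul_le_mul_right _ (by omega)
      have h9 : (p + 1) * Q1 = p * Q1 + Q1 := by ring
      have h10 : p * (Q1 + 4) = p * Q1 + 4 * p := by ring
      omega
  have hD : x ^ 2 ≤ sg x * φ x + 5 * x := by
    have f1 : φ x + 6 + Q1 = x + 2 := by omega
    have f2 : sg x + 1 = x + 2 + Q1 + T := by omega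
    rw [← h2, ← h1, ← hx] at a4
    rw [← hx] at a1
    zify at a1 a4 a5 f1 f2 ⊢
    have g1 : (φ x : ℤ) = x - 4 - Q1 := by linarith
    have g2 : (sg x : ℤ) = x + 1 + Q1 + T := by linarith
    rw [g1, g2] at a4 ⊢
    nlinarith
  have hx125 : 125 < x := by omega
  rcases shape hx125 (fun r hr hrx => by have := hbig r hr hrx; omega)
    (fun r a m1 hr ha hnd hmm => le_five (by omega) hr ha hnd hmm hD) with h | h | h
  · obtain ⟨r, a, hr, ha, hmm⟩ := h
    obtain ⟨T', g1, g2, g3, g4, _⟩ := pp_facts hr ha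
    have h5 := hbig r hr (hmm ▸ dvd_pow_self r ha.ne')
    rw [← hmm] at g4 g1
    have h6 : r ^ (a - 1) = Q1 + 4 := by omega
    rw [h6] at g1
    have h7 : (q + 1) * (Q1 + 4) ≤ r * (Q1 + 4) := Nat.mul_le_mul_right _ h5
    have h8 : (q + 1) * (Q1 + 4) = q * Q1 + 4 * q + Q1 + 4 := by ring
    omega
  · obtain ⟨r, t, hr, ht, hrt, hmm⟩ := h
    have g2 := gg_two_primes hr ht hrt
    rw [← hmm] at g2
    have := sg_add_phi x
    omega
  · obtain ⟨r, t, hr, ht, hr25, hmm, ht5⟩ := h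
    have h5 := hbig r hr (hmm ▸ (dvd_pow_self r two_ne_zero).mul_right _)
    have hxb : x ≤ 78125 := by
      rw [hmm]
      calc r ^ 2 * t ≤ 25 ^ 2 * (5 * 25) := by
            gcongr
            exact ht5.trans (by omega)
        _ = 78125 := by norm_num
    have hl6 : l < 6 := by
      by_contra hcon
      have : 7 ^ 6 ≤ q ^ l :=
        (Nat.pow_le_pow_left hq7 6).trans (Nat.pow_le_pow_right hq.pos (by omega))
      rw [← hx] at this
      norm_num at this
      omega
    have hl4 : l = 4 := by omega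
    subst hl4
    have hq17 : q < 17 := by
      by_contra hcon
      have : 17 ^ 4 ≤ q ^ 4 := Nat.pow_le_pow_left (by omega) 4
      rw [← hx] at this
      norm_num at this
      omega
    have hq' : q = 7 ∨ q = 11 ∨ q = 15 := by omega
    rcases hq' with h | h | h
    · exact last_case h1 hx (Or.inl h)
    · exact last_case h1 hx (Or.inr h)
    · rw [h] at hq; exact absurd hq (by norm_num)

/-- `m + 6 = 3 q^l`, halved equations -/
lemma D_up {m q l : ℕ} (h1 : φ (m + 6) = φ m + 12) (h2 : sg (m + 6) = sg m + 4)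
    (hq : q.Prime) (hq4 : q % 4 = 3) (hq7 : 7 ≤ q) (hl : 0 < l)
    (hn : m + 6 = 3 * q ^ l) : False := by
  obtain ⟨T, hQ, k1, k2, k3, e1⟩ := qdata hq hq7 hl
  have hq3 : ¬ 3 ∣ q := by
    intro h
    have := (Nat.prime_dvd_prime_iff_eq Nat.prime_three hq).1 h
    omega
  have hc : ¬ 3 ∣ q ^ l := fun h => hq3 (Nat.prime_three.dvd_of_dvd_pow h)
  obtain ⟨hQ11, hQ7⟩ := hQ.pos
  have a1 := hQ.h7
  have a2 := hQ.hs
  have a3 := hQ.hf
  have a4 := hQ.hsf
  have a5 := hQ.hT
  have hQ3 : q ^ l % 3 ≠ 0 := by omega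
  have p1 : φ (m + 6) = 2 * φ (q ^ l) := by rw [hn, phi_three_mul hQ3]
  have p2 : sg (m + 6) = 4 * sg (q ^ l) := by rw [hn, sg_three_mul hQ3]
  obtain ⟨x, hx⟩ : ∃ x, x + 2 = q ^ l := ⟨q ^ l - 2, by omega⟩
  have hN : m = 3 * x := by omega
  by_cases hmod : x % 3 = 0
  · have h9 : 9 ∣ m := by omega
    have := nine_ineq h9
    omega
  · rw [p1, hN, phi_three_mul hmod] at h1
    rw [p2, hN, sg_three_mul hmod] at h2
    have g1 : φ x + 6 = φ (q ^ l) := by omega
    have g2 : sg x + 1 = sg (q ^ l) := by omega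
    rcases Nat.mod_two_eq_zero_or_one l with hle | hlo
    · have hT3 : 3 ≤ T := by
        have := two_mul_le x
        omega
      have hl3 : 3 ≤ l := by
        by_contra hcon
        have : l = 1 ∨ l = 2 := by omega
        rcases this with h | h
        · have := k1 h; omega
        · subst h
          obtain ⟨T', b1, b2, b3, b4, _⟩ := pp_facts hq (show 0 < 2 by norm_num)
          have hTT : T' = T := by omega
          subst hTT
          simp only [show 2 - 1 = 1 from rfl, pow_one] at b2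
          obtain ⟨p, rfl⟩ : ∃ p, q = p + 1 := ⟨q - 1, by omega⟩
          simp only [Nat.add_sub_cancel] at b2
          nlinarith
      exact E_core hq hq4 hq7 (by omega) hle g1 g2 hx
    · have s1 := pow_mod_four_of_odd hq4 hlo
      have s2 := four_dvd_sg s1
      have hsq : IsSquare x := by
        by_contra hns
        have := two_dvd_sg (m := x) (by omega) hns
        omega
      have := sq_mod_three hsq hmod
      omega

end Pool.Agent.Helper29.PhiSig
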