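import Pool.Agent.Helper29.PhiSig.PrimePow

/-!
The cases that one of `n`, `n + 12` is `2 p^k` or `4 p^k` (helper29).
-/

namespace Pool.Agent.Helper29.PhiSig

open Nat ArithmeticFunction

/-- halving -/
lemma Sol.half {m : ℕ} (hs : Sol (2 * m)) (hm : m % 2 = 1) :
    φ (m + 6) = φ m + 12 ∧ sg (m + 6) = sg m + 4 := by
  obtain ⟨h1, h2⟩ := hs
  have e : 2 * m + 12 = 2 * (m + 6) := by ring
  rw [e] at h1 h2
  rw [phi_two_mul hm, phi_two_mul (by omega)] at h1
  rw [sg_two_mul hm, sg_two_mul (by omega)] at h2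
  exact ⟨h1, by omega⟩

lemma two_pk_low {m p k : ℕ} (h1 : φ (m + 6) = φ m + 12) (h2 : sg (m + 6) = sg m + 4)
    (hp : p.Prime) (hk : 0 < k) (hm : m = p ^ k) : False := by
  obtain ⟨T, e1, e2, e3, e4, _⟩ := pp_facts hp hk
  rw [← hm] at e3 e4
  have h := sg_phi_le (m + 6)
  have h3 := sg_phi_prime_pow hp hk
  have e5 : p ^ (2 * k) = m ^ 2 := by rw [hm, ← pow_mul]; congr 1; ring
  rw [e5, ← hm] at h3
  rw [h1, h2] at h
  set P1 := p ^ (k - 1)
  nlinarith

lemma pow_mod_four_of_odd {p k : ℕ} (h : p % 4 = 3) (hk : k % 2 = 1) : p ^ k % 4 = 3 := by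
  obtain ⟨j, rfl⟩ : ∃ j, k = 2 * j + 1 := ⟨k / 2, by omega⟩
  rw [pow_succ, pow_mul, Nat.mul_mod, Nat.pow_mod, Nat.pow_mod p 2, h]
  norm_num

lemma pow_mod_four_one {p k : ℕ} (h : p % 4 = 1) : p ^ k % 4 = 1 := by
  rw [Nat.pow_mod, h, one_pow]; norm_num

lemma pow_mod_eight_of_even {p k : ℕ} (h : p % 2 = 1) (hk : k % 2 = 0) : p ^ k % 8 = 1 := by
  obtain ⟨j, rfl⟩ : ∃ j, k = 2 * j := ⟨k / 2, by omega⟩
  have h2 : p ^ 2 % 8 = 1 := by
    have : p % 8 = 1 ∨ p % 8 = 3 ∨ p % 8 = 5 ∨ p % 8 = 7 := by omega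
    rw [Nat.pow_mod]
    rcases this with h | h | h | h <;> rw [h]
  rw [pow_mul, Nat.pow_mod, h2, one_pow]; norm_num

lemma pow_mod_eight_five {p k : ℕ} (h : p % 8 = 5) (hk : k % 2 = 1) : p ^ k % 8 = 5 := by
  obtain ⟨j, rfl⟩ : ∃ j, k = 2 * j + 1 := ⟨k / 2, by omega⟩
  rw [pow_succ, Nat.mul_mod, pow_mod_eight_of_even (by omega) (by omega), h]

lemma pow_mod_three_two {p k : ℕ} (h : p % 3 = 2) (hk : k % 2 = 1) : p ^ k % 3 = 2 := by
  obtain ⟨j, rfl⟩ : ∃ j, k = 2 * j + 1 := ⟨k / 2, by omega⟩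
  rw [pow_succ, pow_mul, Nat.mul_mod, Nat.pow_mod, Nat.pow_mod p 2, h]
  norm_num

lemma gg_two_primes {r t : ℕ} (hr : r.Prime) (ht : t.Prime) (h : r ≠ t) : gg (r * t) = 2 := by
  have h1 := sg_add_phi (r * t)
  have hc : r.Coprime t := (Nat.coprime_primes hr ht).2 h
  rw [sg_mul hc, Nat.totient_mul hc, sg_prime hr, sg_prime ht, Nat.totient_prime hr,
    Nat.totient_prime ht] at h1
  obtain ⟨a, rfl⟩ : ∃ a, r = a + 1 := ⟨r - 1, by have := hr.two_le; omega⟩
  obtain ⟨b, rfl⟩ : ∃ b, t = b + 1 := ⟨t - 1, by have := ht.two_le; omega⟩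
  simp only [Nat.add_sub_cancel] at h1
  nlinarith

/-- from `m^2 ≤ r^(a+1) * (5 m)` -/
lemma le_five {m r a m1 : ℕ} (hm0 : 0 < m) (hr : r.Prime) (ha : 0 < a) (hnd : ¬ r ∣ m1)
    (hm : m = r ^ a * m1) (hD : m ^ 2 ≤ sg m * φ m + 5 * m) : m ≤ 5 * r ^ (a + 1) := by
  have h := block_le hr ha hnd hm hD
  have : m * m ≤ (5 * r ^ (a + 1)) * m := by
    calc m * m = m ^ 2 := by ring
      _ ≤ _ := h
      _ = _ := by ring
  exact Nat.le_of_mul_le_mul_right this hm0

/-- prime divisors `r` of `m` satisfy `m ≤ r (m - φ m)` -/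
lemma le_mul_def {r m c : ℕ} (hr : r.Prime) (hrm : r ∣ m) (hc : m = φ m + c) : m ≤ r * c := by
  have h := mul_phi_le hr hrm
  obtain ⟨s, rfl⟩ : ∃ s, r = s + 1 := ⟨r - 1, by have := hr.two_le; omega⟩
  simp only [Nat.add_sub_cancel] at h
  have h2 : (s + 1) * m = (s + 1) * φ m + (s + 1) * c := by
    conv_lhs => rw [hc]
    ring
  have h3 : (s + 1) * m = s * m + m := by ring
  omega

lemma thirteen_case {m k : ℕ} (h1 : φ (m + 6) = φ m + 12) (hm : m + 6 = 13 ^ k) (hk : 3 ≤ k)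
    (hko : k % 2 = 1) (hmb : m ≤ 78125) : False := by
  have hk4 : k < 5 := by
    by_contra hcon
    have : 13 ^ 5 ≤ 13 ^ k := Nat.pow_le_pow_right (by norm_num) (by omega)
    rw [← hm] at this
    norm_num at this
    omega
  have hk3' : k = 3 := by omega
  subst hk3'
  have hm2191 : m = 2191 := by norm_num at hm; omega
  subst hm2191
  have e13 : φ 2191 = 1872 := by decide +kernel
  have e14 : φ (2191 + 6) = 2028 := by
    rw [show 2191 + 6 = 13 ^ 3 by norm_num, Nat.totient_prime_pow (by norm_num) (by norm_num)]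
    norm_num
  rw [e13, e14] at h1
  omega

lemma two_pk_up {m p k : ℕ} (hm1 : 1 < m) (h1 : φ (m + 6) = φ m + 12)
    (h2 : sg (m + 6) = sg m + 4)
    (hp : p.Prime) (hodd : p % 2 = 1) (hp8 : p % 8 ≠ 1) (hk : 0 < k) (hm : m + 6 = p ^ k) :
    False := by
  obtain ⟨T, e1, e2, e3, e4, k1, k2, k3⟩ := pp_facts hp hk
  rw [hm] at h1 h2
  have hT4 : 4 ≤ T := by
    have := two_mul_le m
    omega
  have hk3 : 3 ≤ k := by
    by_contra hcon
    have : k = 1 ∨ k = 2 := by omega
    rcases this with h | h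
    · have := k1 h; omega
    · subst h
      simp only [show 2 - 1 = 1 from rfl, pow_one] at e2
      obtain ⟨q, rfl⟩ : ∃ q, p = q + 1 := ⟨p - 1, by have := hp.two_le; omega⟩
      simp only [Nat.add_sub_cancel] at e2
      have hq := hp.two_le
      nlinarith
  have hTp := k3 hk3
  rcases Nat.mod_two_eq_zero_or_one k with hke | hko
  · -- `k` even
    have s1 := pow_mod_eight_of_even hodd hke
    have s2 := four_dvd_sg (m := m) (by omega)
    have s3 := sg_pow_mod_two (k := k) hp hodd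
    omega
  have spar := sg_pow_mod_two (k := k) hp hodd
  have hp4 : p % 4 = 1 := by
    by_contra hcon
    have hp3 : p % 4 = 3 := by omega
    have s1 := pow_mod_four_of_odd hp3 hko
    have s2 : φ (p ^ k) % 4 = 2 := by
      rw [Nat.totient_prime_pow hp hk, Nat.mul_mod]
      have t1 : p ^ (k - 1) % 4 = 1 := by
        have := pow_mod_eight_of_even (k := k - 1) hodd (by omega)
        omega
      have t2 : (p - 1) % 4 = 2 := by omega
      rw [t1, t2]
    have s3 : φ m % 4 = 2 := by omega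
    have hmo : m % 2 = 1 := by omega
    have key : ∀ p k, p.Prime → 0 < k → p % 2 = 1 → 2 ∣ φ (p ^ k) := by
      intro p k hp hk hodd
      rw [Nat.totient_prime_pow hp hk]
      exact Dvd.dvd.mul_left (by omega) _
    rcases trichotomy hm1 with h | h | h
    · obtain ⟨r, a, hr, ha, hmm⟩ := h
      have hro := (odd_prime_of_dvd hmo (hmm ▸ dvd_pow_self r ha.ne') hr).2
      have u1 := sg_pow_mod_two (k := a) hr hro
      rw [← hmm] at u1
      have ha2 : a % 2 = 1 := by omega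
      rcases (show r % 4 = 1 ∨ r % 4 = 3 by omega) with hr4 | hr4
      · have : 4 ∣ φ m := by
          rw [hmm, Nat.totient_prime_pow hr ha]
          exact Dvd.dvd.mul_left (by omega) _
        omega
      · have := pow_mod_four_of_odd hr4 ha2
        rw [← hmm] at this
        omega
    · obtain ⟨r, a, t, b, hr, ht, hrt, ha, hb, hmm⟩ := h
      have hro := (odd_prime_of_dvd hmo (hmm ▸ (dvd_pow_self r ha.ne').mul_right _) hr).2
      have hto := (odd_prime_of_dvd hmo (hmm ▸ (dvd_pow_self t hb.ne').mul_left _) ht).2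
      have : 2 * 2 ∣ φ m := by
        rw [hmm, Nat.totient_mul (Nat.Coprime.pow _ _ ((Nat.coprime_primes hr ht).2 hrt))]
        exact Nat.mul_dvd_mul (key r a hr ha hro) (key t b ht hb hto)
      omega
    · obtain ⟨r, a, t, b, u, c, m3, hr, ht, hu, ha, hb, hc, hm3, n1, n2, n3, hmm⟩ := h
      have hro := (odd_prime_of_dvd hmo (hmm ▸ (dvd_pow_self r ha.ne').mul_right _) hr).2
      have hto := (odd_prime_of_dvd hmo
        (hmm ▸ ((dvd_pow_self t hb.ne').mul_right _).mul_left _) ht).2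
      have c1 : (r ^ a).Coprime (t ^ b * (u ^ c * m3)) := cop _ hr n1
      have c2 : (t ^ b).Coprime (u ^ c * m3) := cop _ ht (fun hd => n2 (hd.mul_left _))
      have : 2 * 2 ∣ φ m := by
        rw [hmm, Nat.totient_mul c1, Nat.totient_mul c2, ← mul_assoc]
        exact Dvd.dvd.mul_right (Nat.mul_dvd_mul (key r a hr ha hro) (key t b ht hb hto)) _
      omega
  have hp85 : p % 8 = 5 := by omega
  have s1 := pow_mod_eight_five hp85 hko
  have s2 := eight_dvd_sg (m := m) (by omega)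
  have hp3 : p % 3 = 1 := by
    have h0 : p % 3 ≠ 0 := by
      intro h0
      have : 3 ∣ p := Nat.dvd_of_mod_eq_zero h0
      have := (Nat.prime_dvd_prime_iff_eq Nat.prime_three hp).1 this
      omega
    by_contra hcon
    have h22 : p % 3 = 2 := by omega
    have t1 := pow_mod_three_two h22 hko
    have t2 := three_dvd_sg (m := m) (by omega)
    have t3 := three_dvd_sg t1
    omega
  have hp13 : 13 ≤ p := by omega
  -- sizes
  set P1 := p ^ (k - 1) with hP1
  have hP1b : 13 * p ≤ P1 := by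
    rw [hP1]
    calc 13 * p ≤ p * p := Nat.mul_le_mul_right _ hp13
      _ = p ^ 2 := by ring
      _ ≤ _ := Nat.pow_le_pow_right hp.pos (by omega)
  have hM : m + 6 = p * P1 := by rw [hm, e1]
  have hc : m = φ m + (P1 + 6) := by omega
  have hbig : ∀ r, r.Prime → r ∣ m → p + 1 ≤ r := by
    intro r hr hrm
    have h5 := le_mul_def hr hrm hc
    by_contra hcon
    rcases (show r = p ∨ r ≤ p - 1 by omega) with h6 | h6
    · subst h6
      have : r ∣ 6 := by
        have h7 : r ∣ m + 6 := hM ▸ Dvd.intro _ rfl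
        exact (Nat.dvd_add_right hrm).1 h7
      have := Nat.le_of_dvd (by norm_num) this
      omega
    · obtain ⟨q, rfl⟩ : ∃ q, p = q + 1 := ⟨p - 1, by omega⟩
      have h8 : r * (P1 + 6) ≤ q * (P1 + 6) := Nat.mul_le_mul_right _ (by omega)
      have h9 : (q + 1) * P1 = q * P1 + P1 := by ring
      have h10 : q * (P1 + 6) = q * P1 + 6 * q := by ring
      omega
  have hT12 : 12 * T ≤ P1 - 1 := by
    have : 12 * T ≤ (p - 1) * T := Nat.mul_le_mul_right _ (by omega)
    omega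
  have hD : m ^ 2 ≤ sg m * φ m + 5 * m := by
    have h3 := sg_phi_prime_pow hp hk
    have e5 : p ^ (2 * k) = (m + 6) ^ 2 := by rw [hm, ← pow_mul]; congr 1; ring
    rw [e5, ← hP1, h1, h2] at h3
    have h13 : 13 * P1 ≤ p * P1 := Nat.mul_le_mul_right _ hp13
    have f1 : m + 6 = φ m + 12 + P1 := by omega
    have f2 : sg m + 4 = (m + 6) + P1 + T := by omega
    have f3 : 10 * P1 + 17 ≤ m + 6 := by omega
    have f4 : 12 * T + 1 ≤ P1 := by omega
    zify at h3 f1 f2 f3 f4 ⊢
    nlinarith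
  have h13 : 13 * P1 ≤ p * P1 := Nat.mul_le_mul_right _ hp13
  have hm125 : 125 < m := by omega
  rcases shape hm125 (fun r hr hrm => by have := hbig r hr hrm; omega)
    (fun r a m1 hr ha hnd hmm => le_five (by omega) hr ha hnd hmm hD) with h | h | h
  · obtain ⟨r, a, hr, ha, hmm⟩ := h
    obtain ⟨T', g1, g2, g3, g4, _⟩ := pp_facts hr ha
    have h5 := hbig r hr (hmm ▸ dvd_pow_self r ha.ne')
    rw [← hmm] at g4 g1
    have h6 : r ^ (a - 1) = P1 + 6 := by omega
    rw [h6] at g1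
    have h7 : (p + 1) * (P1 + 6) ≤ r * (P1 + 6) := Nat.mul_le_mul_right _ h5
    have h8 : (p + 1) * (P1 + 6) = p * P1 + 6 * p + P1 + 6 := by ring
    omega
  · obtain ⟨r, t, hr, ht, hrt, hmm⟩ := h
    have g2 := gg_two_primes hr ht hrt
    rw [← hmm] at g2
    have := sg_add_phi m
    omega
  · obtain ⟨r, t, hr, ht, hr25, hmm, ht5⟩ := h
    have h5 := hbig r hr (hmm ▸ (dvd_pow_self r two_ne_zero).mul_right _)
    have hp24 : p = 13 := by omega
    subst hp24
    have hmb : m ≤ 78125 := by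
      rw [hmm]
      calc r ^ 2 * t ≤ 25 ^ 2 * (5 * 25) := by
            gcongr
            exact ht5.trans (by omega)
        _ = 78125 := by norm_num
    rw [← hm] at h1
    exact thirteen_case h1 hm hk3 hko hmb

/-- if `8 ∣ m` then `15 m ≤ 4 σ(m) + 15 φ(m)` -/
lemma eight_ineq {m : ℕ} (h : 8 ∣ m) : 15 * m ≤ 4 * sg m + 15 * φ m := by
  rcases Nat.eq_zero_or_pos m with rfl | hm
  · simp
  obtain ⟨a, m1, hnd, hmm⟩ := Nat.exists_eq_pow_mul_and_not_dvd hm.ne' 2 (by norm_num)
  have ha : 3 ≤ a := by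
    by_contra hcon
    have h1 : 2 ^ 3 ∣ 2 ^ a * m1 := by rw [← hmm]; exact h
    have h2 : (2 ^ 3).Coprime m1 := cop 3 Nat.prime_two hnd
    have h3 := h2.dvd_of_dvd_mul_right h1
    have := (Nat.pow_dvd_pow_iff_le_right (by norm_num)).1 h3
    omega
  obtain ⟨u, hu, hu4⟩ : ∃ u, 2 ^ (a - 1) = u ∧ 4 ≤ u :=
    ⟨_, rfl, by calc 4 = 2 ^ 2 := by norm_num
                  _ ≤ _ := Nat.pow_le_pow_right (by norm_num) (by omega)⟩
  have hc := cop a Nat.prime_two hnd
  have e1 : 2 ^ a = 2 * u := by rw [← hu, ← pow_succ']; congr 1; omega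
  have e2 : φ (2 ^ a) = u := by
    rw [Nat.totient_prime_pow Nat.prime_two (by omega), hu]; norm_num
  have e3 : sg (2 ^ a) + 1 = 4 * u := by
    have := sg_geom (k := a) Nat.prime_two
    rw [pow_succ, e1] at this
    norm_num at this
    rw [e1]
    omega
  have e4 := two_mul_le m1
  rw [hmm, sg_mul hc, Nat.totient_mul hc, e2]
  obtain ⟨s, hs⟩ : ∃ s, sg (2 ^ a) = s := ⟨_, rfl⟩
  rw [hs] at e3 ⊢
  rw [e1]
  have h1 : 15 * u * (2 * m1) ≤ 15 * u * (sg m1 + φ m1) := Nat.mul_le_mul_left _ e4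
  have h2 : 15 * u * sg m1 ≤ 4 * s * sg m1 := Nat.mul_le_mul_right _ (by omega)
  calc 15 * (2 * u * m1) = 15 * u * (2 * m1) := by ring
    _ ≤ 15 * u * (sg m1 + φ m1) := h1
    _ = 15 * u * sg m1 + 15 * (u * φ m1) := by ring
    _ ≤ 4 * s * sg m1 + 15 * (u * φ m1) := by omega
    _ = 4 * (s * sg m1) + 15 * (u * φ m1) := by ring

lemma sg_four_mul {m : ℕ} (hm : m % 2 = 1) : sg (4 * m) = 7 * sg m := by
  have hc : Nat.Coprime 4 m := by
    have := cop 2 Nat.prime_two (m := m) (by omega)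
    simpa using this
  rw [sg_mul hc]
  congr 1

lemma phi_four_mul {m : ℕ} (hm : m % 2 = 1) : φ (4 * m) = 2 * φ m := by
  have hc : Nat.Coprime 4 m := by
    have := cop 2 Nat.prime_two (m := m) (by omega)
    simpa using this
  rw [Nat.totient_mul hc]
  congr 1

lemma pow_odd {p k : ℕ} (h : p % 2 = 1) : p ^ k % 2 = 1 := by
  rw [Nat.pow_mod, h, one_pow]; norm_num

/-- `φ(12 X) = 8 φ(X)` for `X` even and prime to three -/
lemma phi_twelve {X : ℕ} (h2 : X % 2 = 0) (h3 : X % 3 ≠ 0) : φ (12 * X) = 8 * φ X := by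
  have e : 12 * X = 3 * (2 * (2 * X)) := by ring
  rw [e, phi_three_mul (by omega), Nat.totient_mul_of_prime_of_dvd Nat.prime_two (by omega),
    Nat.totient_mul_of_prime_of_dvd Nat.prime_two (by omega)]
  ring

lemma four_pk_low {n p k : ℕ} (hs : Sol n) (hp : p.Prime) (hp4 : p % 4 = 3) (hk : 0 < k)
    (hn : n = 4 * p ^ k) : False := by
  obtain ⟨T, e1, e2, e3, e4, k1, k2, k3⟩ := pp_facts hp hk
  obtain ⟨f1, f2⟩ := hs
  have ho := pow_odd (p := p) (k := k) (by omega)
  rcases Nat.lt_or_ge p 7 with h7 | h7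
  · have hp3 : p = 3 := by
      interval_cases p <;> omega
    subst hp3
    rcases (show k = 1 ∨ 2 ≤ k by omega) with h | h
    · subst h
      have : n = 12 := by omega
      subst this
      have e24 : φ 24 = 8 := by decide +kernel
      rw [show 12 + 12 = 24 from rfl, e24] at f1
      omega
    · have hodd3 : 3 ^ (k - 1) % 2 = 1 := pow_odd (by norm_num)
      have hP3 : 3 ^ (k - 1) % 3 = 0 := by
        have : (3 : ℕ) ∣ 3 ^ (k - 1) := dvd_pow_self 3 (by omega)
        omega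
      have hnm : n + 12 = 12 * (3 ^ (k - 1) + 1) := by omega
      have g1 : φ n = 4 * 3 ^ (k - 1) := by
        rw [hn, phi_four_mul ho]; omega
      rw [hnm, phi_twelve (by omega) (by omega), g1] at f1
      have h5 := mul_phi_le (r := 2) (m := 3 ^ (k - 1) + 1) Nat.prime_two (by omega)
      omega
  · have h8 : 8 ∣ n + 12 := by
      have : n + 12 = 4 * (p ^ k + 3) := by omega
      rw [this]
      exact (show 8 = 4 * 2 by norm_num) ▸ Nat.mul_dvd_mul_left 4 (by omega)
    have h9 := eight_ineq h8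
    rw [f1, f2, hn, sg_four_mul ho, phi_four_mul ho] at h9
    have h6T : 6 * T ≤ p ^ (k - 1) - 1 := by
      have : 6 * T ≤ (p - 1) * T := Nat.mul_le_mul_right _ (by omega)
      omega
    have h10 : 7 * p ^ (k - 1) ≤ p ^ k := by
      rw [e1]; exact Nat.mul_le_mul_right _ h7
    have hk1 : k = 1 := by
      by_contra hcon
      have : p ≤ p ^ (k - 1) := by
        calc p = p ^ 1 := (pow_one p).symm
          _ ≤ _ := Nat.pow_le_pow_right hp.pos (by omega)
      omega
    subst hk1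
    have h11 := mul_phi_le (r := 2) (m := n + 12) Nat.prime_two (by omega)
    rw [f1, hn, phi_four_mul ho] at h11
    simp at e4 h11
    omega

lemma four_pk_up {n p k : ℕ} (hs : Sol n) (h1 : 1 < n) (hp : p.Prime) (hp4 : p % 4 = 3)
    (hk : 0 < k) (hn : n + 12 = 4 * p ^ k) : False := by
  obtain ⟨T, e1, e2, e3, e4, k1, k2, k3⟩ := pp_facts hp hk
  obtain ⟨f1, f2⟩ := hs
  have ho := pow_odd (p := p) (k := k) (by omega)
  rcases Nat.lt_or_ge p 7 with h7 | h7
  · have hp3 : p = 3 := by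
      interval_cases p <;> omega
    subst hp3
    have hk2 : 2 ≤ k := by
      by_contra hcon
      have : k = 1 := by omega
      subst this
      omega
    have hodd3 : 3 ^ (k - 1) % 2 = 1 := pow_odd (by norm_num)
    have hP3 : 3 ^ (k - 1) % 3 = 0 := by
      have : (3 : ℕ) ∣ 3 ^ (k - 1) := dvd_pow_self 3 (by omega)
      omega
    have hpos : 3 ≤ 3 ^ (k - 1) := by
      calc 3 = 3 ^ 1 := by norm_num
        _ ≤ _ := Nat.pow_le_pow_right (by norm_num) (by omega)
    obtain ⟨Y, hY⟩ : ∃ Y, 3 ^ (k - 1) = 2 * Y + 1 := ⟨3 ^ (k - 1) / 2, by omega⟩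
    have hnm : n = 12 * (2 * Y) := by omega
    have g1 : φ (n + 12) = 4 * 3 ^ (k - 1) := by
      rw [hn, phi_four_mul ho]; omega
    have g2 : φ n = 8 * φ (2 * Y) := by
      rw [hnm, phi_twelve (by omega) (by omega)]
    rw [g1, g2] at f1
    have g3 : φ (2 * Y) + 1 = Y := by omega
    rcases Nat.mod_two_eq_zero_or_one Y with hY2 | hY2
    · rw [Nat.totient_mul_of_prime_of_dvd Nat.prime_two (by omega)] at g3
      omega
    · rw [phi_two_mul hY2] at g3
      have hYp : Y.Prime := by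
        rw [← Nat.totient_eq_iff_prime (by omega)]; omega
      have hY3 : Y ≠ 3 := by
        rintro rfl; omega
      have hc24 : Nat.Coprime 24 Y := by
        have h3' : Nat.Coprime 3 Y := (Nat.coprime_primes Nat.prime_three hYp).2 (Ne.symm hY3)
        have h2' : Nat.Coprime (2 ^ 3) Y := cop 3 Nat.prime_two (by omega)
        have := Nat.Coprime.mul_left h2' h3'
        simpa using this
      have g4 : sg n = 60 * (Y + 1) := by
        rw [hnm, show 12 * (2 * Y) = 24 * Y by ring, sg_mul hc24, sg_prime hYp]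
        congr 1
      have g5 : sg (n + 12) = 7 * sg (3 ^ k) := by rw [hn, sg_four_mul ho]
      rw [g4, g5] at f2
      omega
  · have h8 : 8 ∣ n := by
      have : n = 4 * (p ^ k - 3) := by omega
      rw [this]
      exact (show 8 = 4 * 2 by norm_num) ▸ Nat.mul_dvd_mul_left 4 (by omega)
    have h9 := eight_ineq h8
    rw [hn, sg_four_mul ho] at f2
    rw [hn, phi_four_mul ho] at f1
    have h6T : 6 * T ≤ p ^ (k - 1) - 1 := by
      have : 6 * T ≤ (p - 1) * T := Nat.mul_le_mul_right _ (by omega)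
      omega
    have h10 : 7 * p ^ (k - 1) ≤ p ^ k := by
      rw [e1]; exact Nat.mul_le_mul_right _ h7
    omega

end Pool.Agent.Helper29.PhiSig
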